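import Mathlib
import Pool.Agent.Helper51.SF.SF1
import Pool.Agent.Helper8.SF.SF2
import Pool.Agent.Helper61.SF.SF3
import Pool.Agent.Helper67.SF.SF4
import Pool.Agent.Helper71.SF.SF6

/-!
# Project SF (MP_d5570f_nt): the second moment estimate

Test functions `F i` on `ZMod (m i)` (`m i` pairwise coprime), a long interval of the cyclic
group of order `M = ∏ m i`, and the second moment of the product of two sums of test
functions.
-/

set_option linter.unusedSectionVars false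

open Finset

namespace Pool.Agent.Helper94.SF

variable {ι : Type*} [Fintype ι] [DecidableEq ι]
variable (m : ι → ℕ) [∀ i, NeZero (m i)] (u : ι → ℤ) (F : ∀ i, ZMod (m i) → ℝ)

/-- The characters. -/
noncomputable def ch (t : ℤ) (x : ∀ i, ZMod (m i)) : ℂ :=
  ∏ i, ZMod.stdAddChar (((u i * t : ℤ) : ZMod (m i)) * x i)

/-- Local Fourier coefficients of powers of the test functions. -/
noncomputable def hh (t : ℤ) (k : ι → ℕ) (i : ι) : ℂ :=
  ∑ y : ZMod (m i), ZMod.stdAddChar (((u i * t : ℤ) : ZMod (m i)) * y) * ((F i y : ℝ) : ℂ) ^ (k i)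

/-- Global Fourier coefficients of monomials in the test functions. -/
noncomputable def cc (t : ℤ) (k : ι → ℕ) : ℂ := ∏ i, hh m u F t k i

theorem sum_ch (t : ℤ) (k : ι → ℕ) :
    ∑ x : (∀ i, ZMod (m i)), ch m u t x * ∏ i, ((F i (x i) : ℝ) : ℂ) ^ (k i)
      = cc m u F t k := by
  unfold cc hh ch
  rw [Finset.prod_univ_sum, Fintype.piFinset_univ]
  refine Finset.sum_congr rfl fun x _ => ?_
  rw [← Finset.prod_mul_distrib]

theorem ch_mul_conj (s s' : ℤ) (x : ∀ i, ZMod (m i)) :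
    ch m u s x * (starRingEnd ℂ) (ch m u s' x) = ch m u (s - s') x := by
  unfold ch
  rw [map_prod, ← Finset.prod_mul_distrib]
  refine Finset.prod_congr rfl fun i _ => ?_
  rw [← AddChar.map_neg_eq_conj, ← AddChar.map_add_eq_mul]
  congr 1
  push_cast
  ring

/-- The kernel `D`. -/
noncomputable def DD (R : ℕ) (x : ∀ i, ZMod (m i)) : ℂ := ∑ s ∈ range R, ch m u (s : ℤ) x

theorem normSq_DD (R : ℕ) (x : ∀ i, ZMod (m i)) :
    ((‖DD m u R x‖ ^ 2 : ℝ) : ℂ)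
      = ∑ s ∈ range R, ∑ s' ∈ range R, ch m u ((s : ℤ) - s') x := by
  rw [← Complex.normSq_eq_norm_sq, ← Complex.mul_conj]
  unfold DD
  rw [map_sum, Finset.sum_mul_sum]
  exact Finset.sum_congr rfl fun s _ => Finset.sum_congr rfl fun s' _ => ch_mul_conj m u _ _ x

/-- The exponent vector of a 4-tuple of indices. -/
def kk (w : ι × ι × ι × ι) (i : ι) : ℕ :=
  (if i = w.1 then 1 else 0) + (if i = w.2.1 then 1 else 0) + (if i = w.2.2.1 then 1 else 0)
    + (if i = w.2.2.2 then 1 else 0)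

theorem prod_kk (w : ι × ι × ι × ι) (x : ∀ i, ZMod (m i)) :
    ∏ i, ((F i (x i) : ℝ) : ℂ) ^ (kk w i)
      = F w.1 (x w.1) * F w.2.1 (x w.2.1) * (F w.2.2.1 (x w.2.2.1) * F w.2.2.2 (x w.2.2.2)) := by
  unfold kk
  simp only [pow_add, Finset.prod_mul_distrib, pow_ite, pow_one, pow_zero,
    Finset.prod_ite_eq', Finset.mem_univ, if_true]
  ring

/-- The test function `Φ`. -/
noncomputable def Ph (P L : Finset ι) (x : ∀ i, ZMod (m i)) : ℝ :=
  (∑ p ∈ P, F p (x p)) * ∑ l ∈ L, F l (x l)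

theorem Ph_sq (P L : Finset ι) (x : ∀ i, ZMod (m i)) :
    ((Ph m F P L x ^ 2 : ℝ) : ℂ)
      = ∑ w ∈ P ×ˢ P ×ˢ L ×ˢ L, ∏ i, ((F i (x i) : ℝ) : ℂ) ^ (kk w i) := by
  simp only [prod_kk]
  rw [Finset.sum_product]
  simp only [Finset.sum_product]
  unfold Ph
  push_cast
  rw [mul_pow, sq, sq, Finset.sum_mul_sum, Finset.sum_mul_sum, Finset.sum_mul]
  refine Finset.sum_congr rfl fun p _ => ?_
  rw [Finset.sum_mul]
  refine Finset.sum_congr rfl fun p' _ => ?_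
  rw [Finset.mul_sum]
  refine Finset.sum_congr rfl fun l _ => ?_
  rw [Finset.mul_sum]

theorem expand (R : ℕ) (P L : Finset ι) :
    ((∑ x : (∀ i, ZMod (m i)), ‖DD m u R x‖ ^ 2 * Ph m F P L x ^ 2 : ℝ) : ℂ)
      = ∑ w ∈ P ×ˢ P ×ˢ L ×ˢ L, ∑ s ∈ range R, ∑ s' ∈ range R,
          cc m u F ((s : ℤ) - s') (kk w) := by
  have h1 : ∀ x : (∀ i, ZMod (m i)), ((‖DD m u R x‖ ^ 2 * Ph m F P L x ^ 2 : ℝ) : ℂ)
      = ∑ w ∈ P ×ˢ P ×ˢ L ×ˢ L, ∑ s ∈ range R, ∑ s' ∈ range R,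
          ch m u ((s : ℤ) - s') x * ∏ i, ((F i (x i) : ℝ) : ℂ) ^ (kk w i) := by
    intro x
    rw [Complex.ofReal_mul, normSq_DD, Ph_sq, Finset.mul_sum]
    refine Finset.sum_congr rfl fun w _ => ?_
    rw [Finset.sum_mul]
    refine Finset.sum_congr rfl fun s _ => ?_
    rw [Finset.sum_mul]
  rw [Complex.ofReal_sum]
  simp only [h1]
  rw [Finset.sum_comm]
  refine Finset.sum_congr rfl fun w _ => ?_
  rw [Finset.sum_comm]
  refine Finset.sum_congr rfl fun s _ => ?_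
  rw [Finset.sum_comm]
  refine Finset.sum_congr rfl fun s' _ => ?_
  rw [sum_ch]

/-! ### Local coefficients -/

/-- The normalised local Fourier coefficient. -/
noncomputable def gg (i : ι) (j : ZMod (m i)) : ℝ :=
  ‖∑ y : ZMod (m i), ZMod.stdAddChar (j * y) * (F i y : ℂ)‖ / (m i : ℝ)

theorem gg_nonneg (i : ι) (j : ZMod (m i)) : 0 ≤ gg m F i j := by
  unfold gg; positivity

theorem sum_gg_sq (i : ι) (h2 : ∑ y, F i y ^ 2 ≤ (m i : ℝ)) :
    ∑ j : ZMod (m i), gg m F i j ^ 2 ≤ 1 := by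
  have hm : (0 : ℝ) < m i := by exact_mod_cast Nat.pos_of_ne_zero (NeZero.ne (m i))
  unfold gg
  simp only [div_pow]
  rw [← Finset.sum_div, parseval (F i), div_le_one (by positivity)]
  nlinarith

theorem gg_le_one (i : ι) (h2 : ∑ y, F i y ^ 2 ≤ (m i : ℝ)) (j : ZMod (m i)) :
    gg m F i j ≤ 1 := by
  have h := Finset.single_le_sum (f := fun j => gg m F i j ^ 2) (fun j _ => sq_nonneg _)
    (Finset.mem_univ j)
  have h' := h.trans (sum_gg_sq m F i h2)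
  have h0 := gg_nonneg m F i j
  nlinarith

theorem hh_norm_one (t : ℤ) (k : ι → ℕ) (i : ι) (hk : k i = 1) :
    ‖hh m u F t k i‖ = m i * gg m F i ((u i * t : ℤ) : ZMod (m i)) := by
  have hm : (0 : ℝ) < m i := by exact_mod_cast Nat.pos_of_ne_zero (NeZero.ne (m i))
  unfold hh gg
  simp only [hk, pow_one]
  field_simp

theorem hh_zero (t : ℤ) (k : ι → ℕ) (i : ι) (hk : k i = 0) :
    hh m u F t k i = if ((u i * t : ℤ) : ZMod (m i)) = 0 then (m i : ℂ) else 0 := by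
  unfold hh
  simp only [hk, pow_zero, mul_one]
  have := AddChar.sum_mulShift (((u i * t : ℤ) : ZMod (m i))) (ZMod.isPrimitive_stdAddChar (m i))
  simp only [mul_comm _ (((u i * t : ℤ) : ZMod (m i)))] at this
  rw [this, ZMod.card]
  split_ifs <;> simp

theorem hh_norm_zero (t : ℤ) (k : ι → ℕ) (i : ι) (hk : k i = 0) :
    ‖hh m u F t k i‖ ≤ m i := by
  rw [hh_zero m u F t k i hk]
  split_ifs <;> simp

/-- Units. -/
theorem u_mul_eq_zero (i : ι)
    (hu : ((u i * ∏ j ∈ Finset.univ.erase i, (m j : ℤ) : ℤ) : ZMod (m i)) = 1) (t : ℤ) :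
    ((u i * t : ℤ) : ZMod (m i)) = 0 ↔ (m i : ℤ) ∣ t := by
  rw [← ZMod.intCast_zmod_eq_zero_iff_dvd]
  rw [Int.cast_mul] at hu ⊢
  have h1 : IsUnit ((u i : ℤ) : ZMod (m i)) := IsUnit.of_mul_eq_one _ hu
  exact h1.mul_right_eq_zero

theorem dvd_of_cc_ne (hc : ∀ i j, i ≠ j → Nat.Coprime (m i) (m j))
    (hu : ∀ i, ((u i * ∏ j ∈ Finset.univ.erase i, (m j : ℤ) : ℤ) : ZMod (m i)) = 1)
    (t : ℤ) (k : ι → ℕ) (S : Finset ι) (hS : ∀ i, i ∉ S → k i = 0)
    (h : cc m u F t k ≠ 0) : ((∏ i ∈ Sᶜ, m i : ℕ) : ℤ) ∣ t := by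
  push_cast
  apply Finset.prod_dvd_of_coprime
  · intro i _ j _ hij
    exact Nat.isCoprime_iff_coprime.2 (hc i j hij)
  · intro i hi
    by_contra hn
    apply h
    unfold cc
    apply Finset.prod_eq_zero (Finset.mem_univ i)
    rw [hh_zero m u F t k i (hS i (by simpa using hi)), if_neg]
    rw [u_mul_eq_zero m u i (hu i)]
    exact hn

/-! ### The support of a monomial -/

/-- The support. -/
def SS (w : ι × ι × ι × ι) : Finset ι := {w.1, w.2.1, w.2.2.1, w.2.2.2}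

theorem kk_of_not_mem (w : ι × ι × ι × ι) (i : ι) (h : i ∉ SS w) : kk w i = 0 := by
  unfold SS at h
  unfold kk
  simp only [Finset.mem_insert, Finset.mem_singleton, not_or] at h
  simp [h.1, h.2.1, h.2.2.1, h.2.2.2]

/-- The product outside of the support. -/
def WW (w : ι × ι × ι × ι) : ℕ := ∏ i ∈ (SS w)ᶜ, m i

theorem WW_pos (w : ι × ι × ι × ι) : 0 < WW m w :=
  Finset.prod_pos fun i _ => Nat.pos_of_ne_zero (NeZero.ne (m i))

theorem WW_mul (w : ι × ι × ι × ι) : WW m w * ∏ i ∈ SS w, m i = ∏ i, m i :=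
  Finset.prod_compl_mul_prod _ _

theorem prod_insert_le (a : ι) (s : Finset ι) :
    ∏ i ∈ insert a s, m i ≤ m a * ∏ i ∈ s, m i := by
  by_cases h : a ∈ s
  · rw [Finset.insert_eq_of_mem h]
    exact Nat.le_mul_of_pos_left _ (Nat.pos_of_ne_zero (NeZero.ne (m a)))
  · rw [Finset.prod_insert h]

/-- Few primes in the support: only `t = 0` contributes. -/
theorem eq_zero_of_cc_ne (hc : ∀ i j, i ≠ j → Nat.Coprime (m i) (m j))
    (hu : ∀ i, ((u i * ∏ j ∈ Finset.univ.erase i, (m j : ℤ) : ℤ) : ZMod (m i)) = 1)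
    (N R : ℕ) (hR : 8 * N * R ≤ ∏ i, m i) (w : ι × ι × ι × ι)
    (hw : ∏ i ∈ SS w, m i ≤ 8 * N)
    (t : ℤ) (ht : |t| < R) (h : cc m u F t (kk w) ≠ 0) : t = 0 := by
  have hd := dvd_of_cc_ne m u F hc hu t (kk w) (SS w) (kk_of_not_mem w) h
  change ((WW m w : ℕ) : ℤ) ∣ t at hd
  have hWR : R ≤ WW m w := by
    by_contra hlt
    push Not at hlt
    have h1 : ∏ i, m i < 8 * N * R := by
      rw [← WW_mul m w]
      calc WW m w * ∏ i ∈ SS w, m i ≤ WW m w * (8 * N) := Nat.mul_le_mul_left _ hw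
        _ < R * (8 * N) := by
          apply Nat.mul_lt_mul_of_pos_right hlt
          have : 0 < ∏ i ∈ SS w, m i :=
            Finset.prod_pos fun i _ => Nat.pos_of_ne_zero (NeZero.ne (m i))
          omega
        _ = 8 * N * R := by ring
    omega
  have : |t| < (WW m w : ℤ) := lt_of_lt_of_le ht (by exact_mod_cast hWR)
  exact Int.eq_zero_of_abs_lt_dvd hd this

/-- Four different primes in the support. -/
theorem exists_b_of_cc_ne (hc : ∀ i j, i ≠ j → Nat.Coprime (m i) (m j))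
    (hu : ∀ i, ((u i * ∏ j ∈ Finset.univ.erase i, (m j : ℤ) : ℤ) : ZMod (m i)) = 1)
    (h0 : ∀ i, ∑ y, F i y = 0)
    (N R B : ℕ) (hR : 8 * N * R ≤ ∏ i, m i) (w : ι × ι × ι × ι)
    (hw : ∏ i ∈ SS w, m i ≤ 8 * N * B) (hk : kk w w.1 = 1)
    (t : ℤ) (ht : |t| < R) (h : cc m u F t (kk w) ≠ 0) :
    ∃ b : ℤ, b ≠ 0 ∧ |b| < B ∧ t = b * WW m w := by
  have hd := dvd_of_cc_ne m u F hc hu t (kk w) (SS w) (kk_of_not_mem w) h
  change ((WW m w : ℕ) : ℤ) ∣ t at hd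
  obtain ⟨b, hb⟩ := hd
  refine ⟨b, ?_, ?_, by rw [hb]; ring⟩
  · rintro rfl
    apply h
    unfold cc
    apply Finset.prod_eq_zero (Finset.mem_univ w.1)
    have ht0 : t = 0 := by simpa using hb
    unfold hh
    simp only [hk, pow_one, ht0, mul_zero, Int.cast_zero, zero_mul, AddChar.map_zero_eq_one,
      one_mul]
    rw [← Complex.ofReal_sum, h0, Complex.ofReal_zero]
  · have hW : (0 : ℤ) < WW m w := by exact_mod_cast WW_pos m w
    have h1 : (8 * N * R : ℤ) ≤ WW m w * (8 * N * B) := by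
      have : 8 * N * R ≤ WW m w * (8 * N * B) :=
        hR.trans (by rw [← WW_mul m w]; exact Nat.mul_le_mul_left _ hw)
      exact_mod_cast this
    have h2 : |t| = WW m w * |b| := by rw [hb, abs_mul, abs_of_pos hW]
    have hN : (0 : ℤ) < 8 * N := by
      have : 0 < ∏ i ∈ SS w, m i :=
        Finset.prod_pos fun i _ => Nat.pos_of_ne_zero (NeZero.ne (m i))
      have h3 : 0 < 8 * N * B := lt_of_lt_of_le this hw
      have h4 : 0 < 8 * N := Nat.pos_of_mul_pos_right h3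
      exact_mod_cast h4
    have h3 : (8 * N : ℤ) * (WW m w * |b|) < 8 * N * R := by
      rw [← h2]; exact mul_lt_mul_of_pos_left ht hN
    have h4 : (8 * N * WW m w : ℤ) * |b| < (8 * N * WW m w : ℤ) * B := by
      calc (8 * N * WW m w : ℤ) * |b| = (8 * N : ℤ) * (WW m w * |b|) := by ring
        _ < 8 * N * R := h3
        _ ≤ WW m w * (8 * N * B) := h1
        _ = (8 * N * WW m w : ℤ) * B := by ring
    exact lt_of_mul_lt_mul_left h4 (by positivity)

/-! ### Case C -/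

/-- The four indices are different, as far as needed. -/
def CC (w : ι × ι × ι × ι) : Prop := w.1 ≠ w.2.1 ∧ w.2.2.1 ≠ w.2.2.2

instance (w : ι × ι × ι × ι) : Decidable (CC w) := by unfold CC; infer_instance

theorem cc_norm_le (t : ℤ) (w : ι × ι × ι × ι) (hw : w.1 ≠ w.2.1)
    (h2 : ∀ i, ∑ y, F i y ^ 2 ≤ (m i : ℝ)) (hkk : ∀ i, kk w i ≤ 1) :
    ‖cc m u F t (kk w)‖ ≤ (∏ i, (m i : ℝ)) *
      (gg m F w.1 ((u w.1 * t : ℤ) : ZMod (m w.1))
        * gg m F w.2.1 ((u w.2.1 * t : ℤ) : ZMod (m w.2.1))) := by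
  have key : ‖cc m u F t (kk w)‖ ≤ ∏ i, ((m i : ℝ) *
      ((if i = w.1 then gg m F i ((u i * t : ℤ) : ZMod (m i)) else 1)
        * (if i = w.2.1 then gg m F i ((u i * t : ℤ) : ZMod (m i)) else 1))) := by
    unfold cc
    rw [norm_prod]
    apply Finset.prod_le_prod
    · intro i _; exact norm_nonneg _
    · intro i _
      by_cases h0 : kk w i = 0
      · have hi : i ∉ SS w := by
          intro hi
          unfold SS at hi
          simp only [Finset.mem_insert, Finset.mem_singleton] at hi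
          unfold kk at h0
          rcases hi with h | h | h | h <;> simp [h] at h0
        have h1 : i ≠ w.1 := by rintro rfl; exact hi (by simp [SS])
        have h2' : i ≠ w.2.1 := by rintro rfl; exact hi (by simp [SS])
        rw [if_neg h1, if_neg h2', mul_one, mul_one]
        exact hh_norm_zero m u F t (kk w) i h0
      · have h1 : kk w i = 1 := by have := hkk i; omega
        rw [hh_norm_one m u F t (kk w) i h1]
        apply mul_le_mul_of_nonneg_left _ (Nat.cast_nonneg _)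
        have hg := gg_le_one m F i (h2 i) ((u i * t : ℤ) : ZMod (m i))
        by_cases ha : i = w.1
        · have hb : ¬ i = w.2.1 := by rw [ha]; exact hw
          rw [if_pos ha, if_neg hb, mul_one]
        · rw [if_neg ha, one_mul]
          split_ifs
          · exact le_rfl
          · exact hg
  refine key.trans (le_of_eq ?_)
  rw [Finset.prod_mul_distrib, Finset.prod_mul_distrib]
  simp only [Finset.prod_ite_eq', Finset.mem_univ, if_true]

/-- The position of a frequency in the local group. -/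
def jj (w : ι × ι × ι × ι) (b : ℤ) (i : ι) : ZMod (m i) := ((u i * (b * WW m w) : ℤ) : ZMod (m i))

theorem jj_rel (q : ι → ℕ) (hm : ∀ i, m i = q i ^ 2)
    (hu : ∀ i, ((u i * ∏ j ∈ Finset.univ.erase i, (m j : ℤ) : ℤ) : ZMod (m i)) = 1)
    (p p' l l' : ι) (h1 : p ≠ p') (h2 : p ≠ l) (h3 : p ≠ l') (h4 : p' ≠ l) (h5 : p' ≠ l')
    (h6 : l ≠ l') (b : ℤ) :
    ((q p' * q l * q l' : ℕ) : ZMod (m p)) ^ 2 * jj m u (p, p', l, l') b p
      = (b : ZMod (m p)) := by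
  have hS : (∏ j ∈ Finset.univ.erase p, (m j : ℤ))
      = (WW m (p, p', l, l') : ℤ) * ((q p' * q l * q l' : ℕ) : ℤ) ^ 2 := by
    have e1 : (∏ j ∈ Finset.univ.erase p, m j) * m p = ∏ j, m j :=
      Finset.prod_erase_mul _ _ (Finset.mem_univ p)
    have e2 := WW_mul m (p, p', l, l')
    have e3 : ∏ i ∈ SS (p, p', l, l'), m i = m p * (m p' * (m l * m l')) := by
      unfold SS
      rw [Finset.prod_insert (by simp [h1, h2, h3]), Finset.prod_insert (by simp [h4, h5]),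
        Finset.prod_insert (by simp [h6]), Finset.prod_singleton]
    have hmp : 0 < m p := Nat.pos_of_ne_zero (NeZero.ne (m p))
    have e4 : (∏ j ∈ Finset.univ.erase p, m j)
        = WW m (p, p', l, l') * (q p' * q l * q l') ^ 2 := by
      apply Nat.eq_of_mul_eq_mul_right hmp
      rw [e1, ← e2, e3, hm p', hm l, hm l']
      ring
    exact_mod_cast e4
  unfold jj
  have h := hu p
  rw [hS] at h
  calc ((q p' * q l * q l' : ℕ) : ZMod (m p)) ^ 2
        * ((u p * (b * WW m (p, p', l, l')) : ℤ) : ZMod (m p))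
      = (b : ZMod (m p)) * ((u p * ((WW m (p, p', l, l') : ℤ)
          * ((q p' * q l * q l' : ℕ) : ℤ) ^ 2) : ℤ) : ZMod (m p)) := by
        push_cast; ring
    _ = b := by rw [h, mul_one]

theorem fibre_count' (p mm : ℕ) (hmm : mm = p ^ 2) (hp : p.Prime) (hp2 : p ≠ 2) (b : ℤ)
    (hb : ¬ (p : ℤ) ∣ b) (j : ZMod mm) (K : ℕ) (T : Finset ℕ)
    (hT : ∀ n ∈ T, n ≤ K * p ^ 2 ∧ (n : ZMod mm) ^ 2 * j = (b : ZMod mm)) :
    T.card ≤ 2 * (K + 1) := by
  subst hmm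
  exact fibre_count p hp hp2 b hb j K T hT

/-- Fibre count over one frequency. -/
theorem fib (q : ι → ℕ) (hm : ∀ i, m i = q i ^ 2) (hq : ∀ i, (q i).Prime)
    (hqi : Function.Injective q)
    (hu : ∀ i, ((u i * ∏ j ∈ Finset.univ.erase i, (m j : ℤ) : ℤ) : ZMod (m i)) = 1)
    (P L : Finset ι) (hPL : Disjoint P L) (K : ℕ) (p : ι) (hp : p ∈ P) (hp2 : q p ≠ 2)
    (hK : ∀ p' ∈ P, ∀ l ∈ L, ∀ l' ∈ L, q p' * q l * q l' ≤ K * q p ^ 2)
    (b : ℤ) (hb0 : b ≠ 0) (hb : |b| < q p) (j : ZMod (m p)) :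
    ((P ×ˢ L ×ˢ L).filter (fun v => CC (p, v) ∧ jj m u (p, v) b p = j)).card
      ≤ 2 * (2 * (K + 1)) := by
  classical
  have hne : ∀ a ∈ P, ∀ c ∈ L, a ≠ c := fun a ha c hc h =>
    (Finset.disjoint_left.1 hPL ha) (h ▸ hc)
  set E := (P ×ˢ L ×ˢ L).filter (fun v => CC (p, v) ∧ jj m u (p, v) b p = j) with hE
  let f : ι × ι × ι → ℕ := fun v => q v.1 * q v.2.1 * q v.2.2
  have h1 : E.card ≤ 2 * (E.image f).card := by
    apply Finset.card_le_mul_card_image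
    intro n _
    have h2 := triple_count (P.image q) (L.image q)
      (by intro x hx; obtain ⟨i, _, rfl⟩ := Finset.mem_image.1 hx; exact hq i)
      (by intro x hx; obtain ⟨i, _, rfl⟩ := Finset.mem_image.1 hx; exact hq i)
      (by rw [Finset.disjoint_image hqi]; exact hPL) n
    refine le_trans ?_ h2
    apply Finset.card_le_card_of_injOn (fun v => (q v.1, q v.2.1, q v.2.2))
    · intro v hv
      simp only [hE, Finset.coe_filter, Finset.mem_filter, Finset.mem_product,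
        Set.mem_ofPred_eq] at hv
      simp only [Finset.coe_filter, Finset.mem_product, Set.mem_ofPred_eq]
      exact ⟨⟨Finset.mem_image_of_mem _ hv.1.1.1, Finset.mem_image_of_mem _ hv.1.1.2.1,
        Finset.mem_image_of_mem _ hv.1.1.2.2⟩, hv.2⟩
    · intro v _ v' _ h
      simp only [Prod.mk.injEq] at h
      obtain ⟨ha, hb', hc'⟩ := h
      exact Prod.ext (hqi ha) (Prod.ext (hqi hb') (hqi hc'))
  have h2 : (E.image f).card ≤ 2 * (K + 1) := by
    apply fibre_count' (q p) (m p) (hm p) (hq p) hp2 b _ j K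
    · intro n hn
      obtain ⟨v, hv, rfl⟩ := Finset.mem_image.1 hn
      obtain ⟨p', l, l'⟩ := v
      rw [hE, Finset.mem_filter, Finset.mem_product, Finset.mem_product] at hv
      obtain ⟨⟨hp', hl, hl'⟩, ⟨c1, c2⟩, hj⟩ := hv
      refine ⟨hK p' hp' l hl l' hl', ?_⟩
      rw [← hj]
      exact jj_rel m u q hm hu p p' l l' c1 (hne p hp l hl) (hne p hp l' hl')
        (hne p' hp' l hl) (hne p' hp' l' hl') c2 b
    · intro hd
      have := Int.eq_zero_of_abs_lt_dvd hd hb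
      exact hb0 this
  calc E.card ≤ 2 * (E.image f).card := h1
    _ ≤ 2 * (2 * (K + 1)) := Nat.mul_le_mul_left _ h2

/-- The sum over the fibres. -/
theorem sum_fib (q : ι → ℕ) (hm : ∀ i, m i = q i ^ 2) (hq : ∀ i, (q i).Prime)
    (hqi : Function.Injective q)
    (hu : ∀ i, ((u i * ∏ j ∈ Finset.univ.erase i, (m j : ℤ) : ℤ) : ZMod (m i)) = 1)
    (h2 : ∀ i, ∑ y, F i y ^ 2 ≤ (m i : ℝ))
    (P L : Finset ι) (hPL : Disjoint P L) (K : ℕ) (p : ι) (hp : p ∈ P) (hp2 : q p ≠ 2)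
    (hK : ∀ p' ∈ P, ∀ l ∈ L, ∀ l' ∈ L, q p' * q l * q l' ≤ K * q p ^ 2)
    (b : ℤ) (hb0 : b ≠ 0) (hb : |b| < q p) :
    ∑ v ∈ (P ×ˢ L ×ˢ L).filter (fun v => CC (p, v)), gg m F p (jj m u (p, v) b p) ^ 2
      ≤ 4 * (K + 1) := by
  classical
  rw [Finset.sum_comp (fun j => gg m F p j ^ 2) (fun v => jj m u (p, v) b p)]
  have h1 : ∀ j ∈ ((P ×ˢ L ×ˢ L).filter (fun v => CC (p, v))).image
      (fun v => jj m u (p, v) b p),
      (((P ×ˢ L ×ˢ L).filter (fun v => CC (p, v))).filter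
        (fun v => jj m u (p, v) b p = j)).card • gg m F p j ^ 2
        ≤ (4 * (K + 1)) * gg m F p j ^ 2 := by
    intro j _
    rw [nsmul_eq_mul]
    apply mul_le_mul_of_nonneg_right _ (sq_nonneg _)
    rw [Finset.filter_filter]
    have := fib m u q hm hq hqi hu P L hPL K p hp hp2 hK b hb0 hb j
    calc ((((P ×ˢ L ×ˢ L).filter (fun v => CC (p, v) ∧ jj m u (p, v) b p = j)).card : ℕ) : ℝ)
        ≤ ((2 * (2 * (K + 1)) : ℕ) : ℝ) := by exact_mod_cast this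
      _ = 4 * (K + 1) := by push_cast; ring
  refine (Finset.sum_le_sum h1).trans ?_
  rw [← Finset.mul_sum]
  have h3 : ∑ j ∈ ((P ×ˢ L ×ˢ L).filter (fun v => CC (p, v))).image
      (fun v => jj m u (p, v) b p), gg m F p j ^ 2 ≤ 1 :=
    (Finset.sum_le_sum_of_subset_of_nonneg (Finset.subset_univ _)
      (fun _ _ _ => sq_nonneg _)).trans (sum_gg_sq m F p (h2 p))
  have h4 := mul_le_mul_of_nonneg_left h3 (show (0 : ℝ) ≤ 4 * ((K : ℝ) + 1) by positivity)
  rw [mul_one] at h4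
  exact h4

/-! ### The diagonal and the degenerate cases -/

theorem hh_norm_le (t : ℤ) (k : ι → ℕ) (i : ι) (hk : k i ≤ 2)
    (h2 : ∑ y, F i y ^ 2 ≤ (m i : ℝ)) : ‖hh m u F t k i‖ ≤ m i := by
  have hm : (0 : ℝ) < m i := by exact_mod_cast Nat.pos_of_ne_zero (NeZero.ne (m i))
  rcases Nat.lt_or_ge (k i) 1 with h | h
  · exact hh_norm_zero m u F t k i (by omega)
  rcases Nat.lt_or_ge (k i) 2 with h' | h'
  · rw [hh_norm_one m u F t k i (by omega)]
    have := gg_le_one m F i h2 ((u i * t : ℤ) : ZMod (m i))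
    nlinarith
  · have hk2 : k i = 2 := by omega
    unfold hh
    refine (norm_sum_le _ _).trans ?_
    refine le_trans (le_of_eq ?_) h2
    refine Finset.sum_congr rfl fun y _ => ?_
    rw [norm_mul, AddChar.norm_apply, one_mul, hk2, norm_pow, Complex.norm_real, Real.norm_eq_abs,
      sq_abs]

theorem cc_norm_le_all (t : ℤ) (k : ι → ℕ) (hk : ∀ i, k i ≤ 2)
    (h2 : ∀ i, ∑ y, F i y ^ 2 ≤ (m i : ℝ)) : ‖cc m u F t k‖ ≤ ∏ i, (m i : ℝ) := by
  unfold cc
  rw [norm_prod]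
  exact Finset.prod_le_prod (fun i _ => norm_nonneg _)
    (fun i _ => hh_norm_le m u F t k i (hk i) (h2 i))

theorem cc_zero_eq_zero (k : ι → ℕ) (i : ι) (hk : k i = 1) (h0 : ∑ y, F i y = 0) :
    cc m u F 0 k = 0 := by
  unfold cc
  apply Finset.prod_eq_zero (Finset.mem_univ i)
  unfold hh
  simp only [hk, pow_one, mul_zero, Int.cast_zero, zero_mul, AddChar.map_zero_eq_one,
    one_mul]
  rw [← Complex.ofReal_sum, h0, Complex.ofReal_zero]

theorem sum_diff_le (f : ℤ → ℝ) (hf : ∀ t, 0 ≤ f t) (R : ℕ) :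
    ∑ s ∈ range R, ∑ s' ∈ range R, f ((s : ℤ) - s')
      ≤ R * ∑ t ∈ Finset.Ioo (-(R : ℤ)) R, f t := by
  have h1 : ∀ s ∈ range R, ∑ s' ∈ range R, f ((s : ℤ) - s')
      ≤ ∑ t ∈ Finset.Ioo (-(R : ℤ)) R, f t := by
    intro s hs
    have h2 : ∑ s' ∈ range R, f ((s : ℤ) - s')
        = ∑ t ∈ (range R).image (fun s' : ℕ => (s : ℤ) - s'), f t := by
      rw [Finset.sum_image]
      intro a _ b _ hab
      simp only at hab
      omega
    rw [h2]
    apply Finset.sum_le_sum_of_subset_of_nonneg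
    · intro t ht
      obtain ⟨s', hs', rfl⟩ := Finset.mem_image.1 ht
      rw [Finset.mem_range] at hs hs'
      rw [Finset.mem_Ioo]
      omega
    · intro t _ _
      exact hf t
  refine (Finset.sum_le_sum h1).trans ?_
  rw [Finset.sum_const, Finset.card_range, nsmul_eq_mul]

/-- Nonzero frequencies. -/
noncomputable def bs (B : ℕ) : Finset ℤ := (Finset.Ioo (-(B : ℤ)) B).erase 0

theorem mem_bs (B : ℕ) (b : ℤ) : b ∈ bs B ↔ b ≠ 0 ∧ |b| < B := by
  unfold bs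
  rw [Finset.mem_erase, Finset.mem_Ioo, abs_lt]

theorem card_bs (B : ℕ) : (bs B).card ≤ 2 * B := by
  unfold bs
  refine (Finset.card_erase_le).trans ?_
  rw [Int.card_Ioo]
  omega

/-- The contribution of one 4-tuple with four different indices. -/
noncomputable def vv (B : ℕ) (w : ι × ι × ι × ι) : ℝ :=
  ∑ b ∈ bs B, gg m F w.1 (jj m u w b w.1) ^ 2

/-- The swap. -/
def sw (w : ι × ι × ι × ι) : ι × ι × ι × ι := (w.2.1, w.1, w.2.2)

theorem SS_sw (w : ι × ι × ι × ι) : SS (sw w) = SS w := Finset.insert_comm _ _ _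

theorem WW_sw (w : ι × ι × ι × ι) : WW m (sw w) = WW m w := by
  unfold WW; rw [SS_sw]

theorem case_C (hc : ∀ i j, i ≠ j → Nat.Coprime (m i) (m j))
    (hu : ∀ i, ((u i * ∏ j ∈ Finset.univ.erase i, (m j : ℤ) : ℤ) : ZMod (m i)) = 1)
    (h0 : ∀ i, ∑ y, F i y = 0) (h2 : ∀ i, ∑ y, F i y ^ 2 ≤ (m i : ℝ))
    (N R B : ℕ) (hR : 8 * N * R ≤ ∏ i, m i) (w : ι × ι × ι × ι)
    (hw : ∏ i ∈ SS w, m i ≤ 8 * N * B) (hkk : ∀ i, kk w i ≤ 1) (hw1 : w.1 ≠ w.2.1) :
    ∑ t ∈ Finset.Ioo (-(R : ℤ)) R, ‖cc m u F t (kk w)‖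
      ≤ (∏ i, (m i : ℝ)) / 2 * (vv m u F B w + vv m u F B (sw w)) := by
  classical
  have hk1 : kk w w.1 = 1 := by
    have h := hkk w.1
    have h' : 1 ≤ kk w w.1 := by
      unfold kk
      rw [if_pos rfl]
      omega
    omega
  have hMpos : (0 : ℝ) ≤ ∏ i, (m i : ℝ) := Finset.prod_nonneg fun i _ => Nat.cast_nonneg _
  have h3 : ∑ t ∈ Finset.Ioo (-(R : ℤ)) R, ‖cc m u F t (kk w)‖
      ≤ ∑ b ∈ bs B, ‖cc m u F (b * WW m w) (kk w)‖ := by
    have hinj : ∀ a ∈ bs B, ∀ b ∈ bs B, a * (WW m w : ℤ) = b * WW m w → a = b := by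
      intro a _ b _ hab
      have hW : (WW m w : ℤ) ≠ 0 := by exact_mod_cast (WW_pos m w).ne'
      exact mul_right_cancel₀ hW hab
    have h4 : ∑ b ∈ bs B, ‖cc m u F (b * WW m w) (kk w)‖
        = ∑ t ∈ (bs B).image (fun b => b * (WW m w : ℤ)), ‖cc m u F t (kk w)‖ := by
      rw [Finset.sum_image]
      intro a ha b hb hab
      exact hinj a ha b hb hab
    rw [h4, ← Finset.sum_filter_ne_zero]
    apply Finset.sum_le_sum_of_subset_of_nonneg _ (fun _ _ _ => norm_nonneg _)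
    intro t ht
    rw [Finset.mem_filter, Finset.mem_Ioo] at ht
    obtain ⟨ht, hne⟩ := ht
    obtain ⟨b, hb0, hb1, hb2⟩ := exists_b_of_cc_ne m u F hc hu h0 N R B hR w hw hk1 t
      (abs_lt.2 ht) (by intro h; apply hne; rw [h, norm_zero])
    rw [Finset.mem_image]
    exact ⟨b, (mem_bs B b).2 ⟨hb0, hb1⟩, hb2.symm⟩
  refine h3.trans ?_
  unfold vv
  rw [← Finset.sum_add_distrib, Finset.mul_sum]
  refine Finset.sum_le_sum fun b _ => ?_
  have h5 := cc_norm_le m u F (b * WW m w) w hw1 h2 hkk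
  refine h5.trans ?_
  have h6 : gg m F (sw w).1 (jj m u (sw w) b (sw w).1)
      = gg m F w.2.1 ((u w.2.1 * (b * WW m w) : ℤ) : ZMod (m w.2.1)) := by
    unfold jj
    rw [WW_sw]
    rfl
  have h7 : gg m F w.1 (jj m u w b w.1)
      = gg m F w.1 ((u w.1 * (b * WW m w) : ℤ) : ZMod (m w.1)) := rfl
  rw [h6, h7]
  rw [div_mul_eq_mul_div, mul_div_assoc]
  apply mul_le_mul_of_nonneg_left _ hMpos
  nlinarith [sq_nonneg (gg m F w.1 ((u w.1 * (b * WW m w) : ℤ) : ZMod (m w.1))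
    - gg m F w.2.1 ((u w.2.1 * (b * WW m w) : ℤ) : ZMod (m w.2.1)))]

theorem sum_vv (q : ι → ℕ) (hm : ∀ i, m i = q i ^ 2) (hq : ∀ i, (q i).Prime)
    (hqi : Function.Injective q)
    (hu : ∀ i, ((u i * ∏ j ∈ Finset.univ.erase i, (m j : ℤ) : ℤ) : ZMod (m i)) = 1)
    (h2 : ∀ i, ∑ y, F i y ^ 2 ≤ (m i : ℝ))
    (P L : Finset ι) (hPL : Disjoint P L) (K B : ℕ) (hp2 : ∀ p ∈ P, q p ≠ 2)
    (hB : ∀ p ∈ P, B ≤ q p)
    (hK : ∀ p ∈ P, ∀ p' ∈ P, ∀ l ∈ L, ∀ l' ∈ L, q p' * q l * q l' ≤ K * q p ^ 2) :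
    ∑ w ∈ (P ×ˢ P ×ˢ L ×ˢ L).filter (fun w => CC w), vv m u F B w
      ≤ 8 * (K + 1) * B * P.card := by
  classical
  have h3 : ∑ w ∈ (P ×ˢ P ×ˢ L ×ˢ L).filter (fun w => CC w), vv m u F B w
      = ∑ p ∈ P, ∑ b ∈ bs B, ∑ v ∈ (P ×ˢ L ×ˢ L).filter (fun v => CC (p, v)),
          gg m F p (jj m u (p, v) b p) ^ 2 := by
    rw [Finset.sum_filter, Finset.sum_product]
    refine Finset.sum_congr rfl fun p _ => ?_
    rw [Finset.sum_comm]
    rw [Finset.sum_filter]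
    refine Finset.sum_congr rfl fun v _ => ?_
    rfl
  rw [h3]
  have h4 : ∀ p ∈ P, ∑ b ∈ bs B, ∑ v ∈ (P ×ˢ L ×ˢ L).filter (fun v => CC (p, v)),
          gg m F p (jj m u (p, v) b p) ^ 2 ≤ 8 * (K + 1) * B := by
    intro p hp
    have h5 : ∀ b ∈ bs B, ∑ v ∈ (P ×ˢ L ×ˢ L).filter (fun v => CC (p, v)),
          gg m F p (jj m u (p, v) b p) ^ 2 ≤ 4 * (K + 1) := by
      intro b hb
      rw [mem_bs] at hb
      apply sum_fib m u F q hm hq hqi hu h2 P L hPL K p hp (hp2 p hp) (hK p hp) b hb.1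
      exact lt_of_lt_of_le hb.2 (by exact_mod_cast hB p hp)
    refine (Finset.sum_le_sum h5).trans ?_
    rw [Finset.sum_const, nsmul_eq_mul]
    have h6 : ((bs B).card : ℝ) ≤ 2 * B := by exact_mod_cast card_bs B
    nlinarith [(Nat.cast_nonneg K : (0 : ℝ) ≤ K)]
  refine (Finset.sum_le_sum h4).trans ?_
  rw [Finset.sum_const, nsmul_eq_mul]
  apply le_of_eq
  ring

theorem kk_le_one (p p' l l' : ι) (h1 : p ≠ p') (h2 : p ≠ l) (h3 : p ≠ l') (h4 : p' ≠ l)
    (h5 : p' ≠ l') (h6 : l ≠ l') (i : ι) : kk (p, p', l, l') i ≤ 1 := by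
  unfold kk
  simp only
  by_cases a : i = p
  · subst a; simp [h1, h2, h3]
  by_cases b : i = p'
  · subst b; simp [a, h4, h5]
  by_cases c : i = l
  · subst c; simp [a, b, h6]
  simp [a, b, c]
  split_ifs <;> simp

theorem kk_le_two (p l : ι) (h : p ≠ l) (i : ι) : kk (p, p, l, l) i ≤ 2 := by
  unfold kk
  simp only
  by_cases a : i = p
  · subst a; simp [h]
  simp [a]
  split_ifs <;> simp

theorem sum_vv_sw (P L : Finset ι) (B : ℕ) :
    ∑ w ∈ (P ×ˢ P ×ˢ L ×ˢ L).filter (fun w => CC w), vv m u F B (sw w)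
      = ∑ w ∈ (P ×ˢ P ×ˢ L ×ˢ L).filter (fun w => CC w), vv m u F B w := by
  classical
  apply Finset.sum_nbij' (i := sw) (j := sw)
  · intro w hw
    rw [Finset.mem_filter] at hw ⊢
    obtain ⟨p, p', l, l'⟩ := w
    simp only [Finset.mem_product, CC, sw] at hw ⊢
    exact ⟨⟨hw.1.2.1, hw.1.1, hw.1.2.2⟩, fun h => hw.2.1 h.symm, hw.2.2⟩
  · intro w hw
    rw [Finset.mem_filter] at hw ⊢
    obtain ⟨p, p', l, l'⟩ := w
    simp only [Finset.mem_product, CC, sw] at hw ⊢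
    exact ⟨⟨hw.1.2.1, hw.1.1, hw.1.2.2⟩, fun h => hw.2.1 h.symm, hw.2.2⟩
  · intro w _; rfl
  · intro w _; rfl
  · intro w _; rfl

theorem total (q : ι → ℕ) (hm : ∀ i, m i = q i ^ 2) (hq : ∀ i, (q i).Prime)
    (hqi : Function.Injective q) (hc : ∀ i j, i ≠ j → Nat.Coprime (m i) (m j))
    (hu : ∀ i, ((u i * ∏ j ∈ Finset.univ.erase i, (m j : ℤ) : ℤ) : ZMod (m i)) = 1)
    (h0 : ∀ i, ∑ y, F i y = 0) (h2 : ∀ i, ∑ y, F i y ^ 2 ≤ (m i : ℝ))
    (P L : Finset ι) (hPL : Disjoint P L) (K B N R : ℕ) (hp2 : ∀ p ∈ P, q p ≠ 2)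
    (hB : ∀ p ∈ P, B ≤ q p)
    (hK : ∀ p ∈ P, ∀ p' ∈ P, ∀ l ∈ L, ∀ l' ∈ L, q p' * q l * q l' ≤ K * q p ^ 2)
    (hR : 8 * N * R ≤ ∏ i, m i)
    (hS1 : ∀ p ∈ P, ∀ l ∈ L, ∀ l' ∈ L, m p * m l * m l' ≤ 8 * N)
    (hS2 : ∀ p ∈ P, ∀ p' ∈ P, ∀ l ∈ L, m p * m p' * m l ≤ 8 * N)
    (hS3 : ∀ p ∈ P, ∀ p' ∈ P, ∀ l ∈ L, ∀ l' ∈ L, m p * m p' * m l * m l' ≤ 8 * N * B) :
    ∑ w ∈ P ×ˢ P ×ˢ L ×ˢ L, ∑ t ∈ Finset.Ioo (-(R : ℤ)) R, ‖cc m u F t (kk w)‖
      ≤ (∏ i, (m i : ℝ)) * (P.card * L.card + 8 * (K + 1) * B * P.card) := by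
  classical
  set M : ℝ := ∏ i, (m i : ℝ) with hM
  have hM0 : 0 ≤ M := Finset.prod_nonneg fun i _ => Nat.cast_nonneg _
  have hne : ∀ a ∈ P, ∀ c ∈ L, a ≠ c := fun a ha c hc h =>
    (Finset.disjoint_left.1 hPL ha) (h ▸ hc)
  have hpos : ∀ i, 0 < m i := fun i => Nat.pos_of_ne_zero (NeZero.ne (m i))
  have hvv : ∀ w, 0 ≤ vv m u F B w := fun w => Finset.sum_nonneg fun _ _ => sq_nonneg _
  have hmain : ∀ w ∈ P ×ˢ P ×ˢ L ×ˢ L, ∑ t ∈ Finset.Ioo (-(R : ℤ)) R, ‖cc m u F t (kk w)‖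
      ≤ (if w.1 = w.2.1 ∧ w.2.2.1 = w.2.2.2 then M else 0)
        + (if CC w then M / 2 * (vv m u F B w + vv m u F B (sw w)) else 0) := by
    rintro ⟨p, p', l, l'⟩ hw
    simp only [Finset.mem_product] at hw
    obtain ⟨hp, hp', hl, hl'⟩ := hw
    by_cases hpp : p = p'
    · subst hpp
      have hCC : ¬ CC (p, p, l, l') := fun h => h.1 rfl
      rw [if_neg hCC, add_zero]
      have hsupp : ∏ i ∈ SS (p, p, l, l'), m i ≤ 8 * N := by
        have e : SS (p, p, l, l') = insert p (insert l {l'}) := by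
          unfold SS
          simp only [Finset.mem_insert, true_or, Finset.insert_eq_of_mem]
        rw [e]
        refine (prod_insert_le m p _).trans ?_
        refine (Nat.mul_le_mul_left _ (prod_insert_le m l _)).trans ?_
        rw [Finset.prod_singleton, ← mul_assoc]
        exact hS1 p hp l hl l' hl'
      have hz : ∀ t ∈ Finset.Ioo (-(R : ℤ)) R, t ≠ 0 → ‖cc m u F t (kk (p, p, l, l'))‖ = 0 := by
        intro t ht ht0
        rw [Finset.mem_Ioo] at ht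
        rw [norm_eq_zero]
        by_contra hcc
        exact ht0 (eq_zero_of_cc_ne m u F hc hu N R hR _ hsupp t (abs_lt.2 ht) hcc)
      by_cases hll : l = l'
      · subst hll
        rw [if_pos ⟨rfl, rfl⟩]
        by_cases hR0 : (0 : ℤ) ∈ Finset.Ioo (-(R : ℤ)) R
        · rw [Finset.sum_eq_single_of_mem 0 hR0 hz]
          exact cc_norm_le_all m u F 0 _ (kk_le_two p l (hne p hp l hl)) h2
        · rw [Finset.sum_eq_zero]
          · exact hM0
          · intro t ht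
            exact hz t ht (by rintro rfl; exact hR0 ht)
      · rw [if_neg (fun h => hll h.2)]
        apply le_of_eq
        apply Finset.sum_eq_zero
        intro t ht
        by_cases ht0 : t = 0
        · subst ht0
          rw [cc_zero_eq_zero m u F _ l _ (h0 l), norm_zero]
          unfold kk
          simp [(hne p hp l hl).symm, hll]
        · exact hz t ht ht0
    · by_cases hll : l = l'
      · subst hll
        have hCC : ¬ CC (p, p', l, l) := fun h => h.2 rfl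
        rw [if_neg hCC, if_neg (fun h => hpp h.1), add_zero]
        have hsupp : ∏ i ∈ SS (p, p', l, l), m i ≤ 8 * N := by
          have e : SS (p, p', l, l) = insert p (insert p' {l}) := by
            unfold SS
            simp only [Finset.pair_eq_singleton]
          rw [e]
          refine (prod_insert_le m p _).trans ?_
          refine (Nat.mul_le_mul_left _ (prod_insert_le m p' _)).trans ?_
          rw [Finset.prod_singleton, ← mul_assoc]
          exact hS2 p hp p' hp' l hl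
        apply le_of_eq
        apply Finset.sum_eq_zero
        intro t ht
        by_cases ht0 : t = 0
        · subst ht0
          rw [cc_zero_eq_zero m u F _ p _ (h0 p), norm_zero]
          unfold kk
          simp [hne p hp l hl, hpp]
        · rw [Finset.mem_Ioo] at ht
          rw [norm_eq_zero]
          by_contra hcc
          exact ht0 (eq_zero_of_cc_ne m u F hc hu N R hR _ hsupp t (abs_lt.2 ht) hcc)
      · have hCC : CC (p, p', l, l') := ⟨hpp, hll⟩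
        rw [if_pos hCC, if_neg (fun h => hpp h.1), zero_add]
        apply case_C m u F hc hu h0 h2 N R B hR (p, p', l, l') _ _ hpp
        · have e3 : ∏ i ∈ SS (p, p', l, l'), m i = m p * m p' * m l * m l' := by
            unfold SS
            rw [Finset.prod_insert (by simp [hpp, hne p hp l hl, hne p hp l' hl']),
              Finset.prod_insert (by simp [hne p' hp' l hl, hne p' hp' l' hl']),
              Finset.prod_insert (by simp [hll]), Finset.prod_singleton]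
            ring
          rw [e3]
          exact hS3 p hp p' hp' l hl l' hl'
        · exact kk_le_one p p' l l' hpp (hne p hp l hl) (hne p hp l' hl') (hne p' hp' l hl)
            (hne p' hp' l' hl') hll
  refine (Finset.sum_le_sum hmain).trans ?_
  rw [Finset.sum_add_distrib, ← Finset.sum_filter, ← Finset.sum_filter, ← Finset.mul_sum,
    Finset.sum_add_distrib, sum_vv_sw, Finset.sum_const, nsmul_eq_mul]
  have h5 := sum_vv m u F q hm hq hqi hu h2 P L hPL K B hp2 hB hK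
  have h6 : (((P ×ˢ P ×ˢ L ×ˢ L).filter
      (fun w => w.1 = w.2.1 ∧ w.2.2.1 = w.2.2.2)).card : ℝ) ≤ P.card * L.card := by
    have : ((P ×ˢ P ×ˢ L ×ˢ L).filter
      (fun w => w.1 = w.2.1 ∧ w.2.2.1 = w.2.2.2)).card ≤ (P ×ˢ L).card := by
      apply Finset.card_le_card_of_injOn (fun w => (w.1, w.2.2.1))
      · rintro ⟨p, p', l, l'⟩ hw
        simp only [Finset.coe_filter, Finset.mem_product, Set.mem_ofPred_eq] at hw
        simp only [Finset.coe_product, Set.mem_prod, Finset.mem_coe]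
        exact ⟨hw.1.1, hw.1.2.2.1⟩
      · rintro ⟨p, p', l, l'⟩ hw ⟨a, a', c, c'⟩ hw' h
        simp only [Finset.coe_filter, Finset.mem_product, Set.mem_ofPred_eq] at hw hw'
        simp only [Prod.mk.injEq] at h ⊢
        refine ⟨h.1, ?_, h.2, ?_⟩
        · rw [← hw.2.1, ← hw'.2.1, h.1]
        · rw [← hw.2.2, ← hw'.2.2, h.2]
    rw [Finset.card_product] at this
    exact_mod_cast this
  have h7 := mul_le_mul_of_nonneg_right h6 hM0
  have h8 := mul_le_mul_of_nonneg_left h5 hM0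
  nlinarith

theorem full_sum_le (q : ι → ℕ) (hm : ∀ i, m i = q i ^ 2) (hq : ∀ i, (q i).Prime)
    (hqi : Function.Injective q) (hc : ∀ i j, i ≠ j → Nat.Coprime (m i) (m j))
    (hu : ∀ i, ((u i * ∏ j ∈ Finset.univ.erase i, (m j : ℤ) : ℤ) : ZMod (m i)) = 1)
    (h0 : ∀ i, ∑ y, F i y = 0) (h2 : ∀ i, ∑ y, F i y ^ 2 ≤ (m i : ℝ))
    (P L : Finset ι) (hPL : Disjoint P L) (K B N R : ℕ) (hp2 : ∀ p ∈ P, q p ≠ 2)
    (hB : ∀ p ∈ P, B ≤ q p)
    (hK : ∀ p ∈ P, ∀ p' ∈ P, ∀ l ∈ L, ∀ l' ∈ L, q p' * q l * q l' ≤ K * q p ^ 2)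
    (hR : 8 * N * R ≤ ∏ i, m i)
    (hS1 : ∀ p ∈ P, ∀ l ∈ L, ∀ l' ∈ L, m p * m l * m l' ≤ 8 * N)
    (hS2 : ∀ p ∈ P, ∀ p' ∈ P, ∀ l ∈ L, m p * m p' * m l ≤ 8 * N)
    (hS3 : ∀ p ∈ P, ∀ p' ∈ P, ∀ l ∈ L, ∀ l' ∈ L, m p * m p' * m l * m l' ≤ 8 * N * B) :
    ∑ x : (∀ i, ZMod (m i)), ‖DD m u R x‖ ^ 2 * Ph m F P L x ^ 2
      ≤ R * ((∏ i, (m i : ℝ)) * (P.card * L.card + 8 * (K + 1) * B * P.card)) := by
  classical
  have hnn : 0 ≤ ∑ x : (∀ i, ZMod (m i)), ‖DD m u R x‖ ^ 2 * Ph m F P L x ^ 2 :=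
    Finset.sum_nonneg fun x _ => mul_nonneg (sq_nonneg _) (sq_nonneg _)
  have h1 : ∑ x : (∀ i, ZMod (m i)), ‖DD m u R x‖ ^ 2 * Ph m F P L x ^ 2
      = ‖((∑ x : (∀ i, ZMod (m i)), ‖DD m u R x‖ ^ 2 * Ph m F P L x ^ 2 : ℝ) : ℂ)‖ := by
    rw [Complex.norm_real, Real.norm_eq_abs, abs_of_nonneg hnn]
  rw [h1, expand]
  have h3 : ‖∑ w ∈ P ×ˢ P ×ˢ L ×ˢ L, ∑ s ∈ range R, ∑ s' ∈ range R,
          cc m u F ((s : ℤ) - s') (kk w)‖
      ≤ ∑ w ∈ P ×ˢ P ×ˢ L ×ˢ L, R * ∑ t ∈ Finset.Ioo (-(R : ℤ)) R, ‖cc m u F t (kk w)‖ := by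
    refine (norm_sum_le _ _).trans (Finset.sum_le_sum fun w _ => ?_)
    refine le_trans ?_ (sum_diff_le (fun t => ‖cc m u F t (kk w)‖) (fun _ => norm_nonneg _) R)
    refine (norm_sum_le _ _).trans (Finset.sum_le_sum fun s _ => ?_)
    exact norm_sum_le _ _
  refine h3.trans ?_
  rw [← Finset.mul_sum]
  exact mul_le_mul_of_nonneg_left (total m u F q hm hq hqi hc hu h0 h2 P L hPL K B N R hp2 hB
    hK hR hS1 hS2 hS3) (Nat.cast_nonneg _)

theorem cast_inj (hc : ∀ i j, i ≠ j → Nat.Coprime (m i) (m j)) (N : ℕ)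
    (hM : N < ∏ i, m i) (a b : ℕ) (ha : a ≤ N) (hb : b ≤ N)
    (h : ∀ i, (a : ZMod (m i)) = (b : ZMod (m i))) : a = b := by
  have h1 : (∏ i, (m i : ℤ)) ∣ (a : ℤ) - b := by
    apply Finset.prod_dvd_of_coprime
    · intro i _ j _ hij
      exact Nat.isCoprime_iff_coprime.2 (hc i j hij)
    · intro i _
      rw [← ZMod.intCast_zmod_eq_zero_iff_dvd]
      push_cast
      rw [h i, sub_self]
  have h2 : |(a : ℤ) - b| < ∏ i, (m i : ℤ) := by
    have h3 : (N : ℤ) < ∏ i, (m i : ℤ) := by exact_mod_cast hM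
    rw [abs_lt]
    constructor <;> omega
  have := Int.eq_zero_of_abs_lt_dvd h1 h2
  omega

/-- **The second moment estimate.** -/
theorem core (q : ι → ℕ) (hm : ∀ i, m i = q i ^ 2) (hq : ∀ i, (q i).Prime)
    (hqi : Function.Injective q)
    (h0 : ∀ i, ∑ y, F i y = 0) (h2 : ∀ i, ∑ y, F i y ^ 2 ≤ (m i : ℝ))
    (P L : Finset ι) (hPL : Disjoint P L) (K B N : ℕ) (hN : 0 < N) (hp2 : ∀ p ∈ P, q p ≠ 2)
    (hB : ∀ p ∈ P, B ≤ q p)
    (hK : ∀ p ∈ P, ∀ p' ∈ P, ∀ l ∈ L, ∀ l' ∈ L, q p' * q l * q l' ≤ K * q p ^ 2)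
    (hM : 8 * N ≤ ∏ i, m i)
    (hS1 : ∀ p ∈ P, ∀ l ∈ L, ∀ l' ∈ L, m p * m l * m l' ≤ 8 * N)
    (hS2 : ∀ p ∈ P, ∀ p' ∈ P, ∀ l ∈ L, m p * m p' * m l ≤ 8 * N)
    (hS3 : ∀ p ∈ P, ∀ p' ∈ P, ∀ l ∈ L, ∀ l' ∈ L, m p * m p' * m l * m l' ≤ 8 * N * B) :
    ∑ n ∈ Icc 1 N, ((∑ p ∈ P, F p (n : ZMod (m p))) * ∑ l ∈ L, F l (n : ZMod (m l))) ^ 2
      ≤ 32 * N * (P.card * L.card + 8 * (K + 1) * B * P.card) := by
  classical
  have hc : ∀ i j, i ≠ j → Nat.Coprime (m i) (m j) := by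
    intro i j hij
    rw [hm i, hm j]
    apply Nat.Coprime.pow
    rw [Nat.coprime_primes (hq i) (hq j)]
    exact fun h => hij (hqi h)
  obtain ⟨u, hu, hch⟩ := exists_units m hc
  set M : ℕ := ∏ i, m i with hMdef
  set R : ℕ := M / (8 * N) with hRdef
  have hR : 8 * N * R ≤ M := Nat.mul_div_le M (8 * N)
  have hR1 : 1 ≤ R := Nat.div_pos hM (by omega)
  have hMR : M ≤ 16 * N * R := by
    have h3 : M < 8 * N * (R + 1) := Nat.lt_mul_div_succ M (by omega)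
    nlinarith
  have hM0 : 0 < M := by omega
  let f : ℕ → (∀ i, ZMod (m i)) := fun n i => (n : ZMod (m i))
  have hDD : ∀ n ∈ Icc 1 N, (R : ℝ) ^ 2 / 2 ≤ ‖DD m u R (f n)‖ ^ 2 := by
    intro n hn
    have h3 := kernel_large R N M hR hM0 n (Finset.mem_Icc.1 hn).2
    refine h3.trans (le_of_eq ?_)
    congr 2
    unfold DD ch
    refine Finset.sum_congr rfl fun s _ => ?_
    have h4 := hch ((s : ℤ) * n)
    rw [show (((s * n : ℕ) : ℂ)) = (((s : ℤ) * n : ℤ) : ℂ) by push_cast; ring]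
    rw [← h4]
    refine Finset.prod_congr rfl fun i _ => ?_
    congr 1
    simp only [f]
    push_cast
    ring
  have hinj : Set.InjOn f (Icc 1 N : Finset ℕ) := by
    intro a ha b hb hab
    rw [Finset.coe_Icc, Set.mem_Icc] at ha hb
    exact cast_inj m hc N (by omega) a b ha.2 hb.2 (fun i => congrFun hab i)
  have h3 := full_sum_le m u F q hm hq hqi hc hu h0 h2 P L hPL K B N R hp2 hB hK hR hS1 hS2 hS3
  have h4 : ∑ n ∈ Icc 1 N, ‖DD m u R (f n)‖ ^ 2 * Ph m F P L (f n) ^ 2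
      ≤ ∑ x : (∀ i, ZMod (m i)), ‖DD m u R x‖ ^ 2 * Ph m F P L x ^ 2 := by
    rw [← Finset.sum_image (f := fun x => ‖DD m u R x‖ ^ 2 * Ph m F P L x ^ 2) hinj]
    exact Finset.sum_le_sum_of_subset_of_nonneg (Finset.subset_univ _)
      (fun _ _ _ => mul_nonneg (sq_nonneg _) (sq_nonneg _))
  have h5 : (R : ℝ) ^ 2 / 2 * ∑ n ∈ Icc 1 N, Ph m F P L (f n) ^ 2
      ≤ ∑ n ∈ Icc 1 N, ‖DD m u R (f n)‖ ^ 2 * Ph m F P L (f n) ^ 2 := by
    rw [Finset.mul_sum]
    exact Finset.sum_le_sum fun n hn => mul_le_mul_of_nonneg_right (hDD n hn) (sq_nonneg _)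
  have h6 := h5.trans (h4.trans h3)
  have hMc : (∏ i, (m i : ℝ)) = (M : ℝ) := by rw [hMdef]; push_cast; rfl
  rw [hMc] at h6
  have hMR' : (M : ℝ) ≤ 16 * N * R := by exact_mod_cast hMR
  have hRpos : (0 : ℝ) < R := by exact_mod_cast hR1
  have hX : (0 : ℝ) ≤ P.card * L.card + 8 * (K + 1) * B * P.card := by positivity
  have h7 : ∑ n ∈ Icc 1 N, Ph m F P L (f n) ^ 2
      ≤ 32 * N * (P.card * L.card + 8 * (K + 1) * B * P.card) := by
    have h8 : (R : ℝ) ^ 2 / 2 * ∑ n ∈ Icc 1 N, Ph m F P L (f n) ^ 2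
        ≤ (R : ℝ) ^ 2 / 2 * (32 * N * (P.card * L.card + 8 * (K + 1) * B * P.card)) := by
      refine h6.trans ?_
      have h9 := mul_le_mul_of_nonneg_left (mul_le_mul_of_nonneg_right hMR' hX) hRpos.le
      calc (R : ℝ) * ((M : ℝ) * (P.card * L.card + 8 * (K + 1) * B * P.card))
          ≤ R * ((16 * N * R) * (P.card * L.card + 8 * (K + 1) * B * P.card)) := h9
        _ = _ := by ring
    exact le_of_mul_le_mul_left h8 (by positivity)
  exact h7

end Pool.Agent.Helper94.SF
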