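import Mathlib

/-!
# Project SF (MP_d5570f_nt): the local test functions
-/

open Finset

namespace Pool.Agent.Helper94.SF

/-- The number of classes modulo `m` met by `A`. -/
def ncl (m : ℕ) (A : Finset ℕ) : ℕ := (A.image (· % m)).card

theorem ncl_eq (m : ℕ) [NeZero m] (A : Finset ℕ) :
    (A.image (Nat.cast : ℕ → ZMod m)).card = ncl m A := by
  classical
  unfold ncl
  have h : A.image (· % m) = (A.image (Nat.cast : ℕ → ZMod m)).image ZMod.val := by
    rw [Finset.image_image]
    refine Finset.image_congr fun a _ => ?_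
    simp only [Function.comp_apply, ZMod.val_natCast]
  rw [h, Finset.card_image_of_injective _ (ZMod.val_injective m)]

/-- The weight of the local test function on the classes of `A`. -/
noncomputable def gam (m : ℕ) (A : Finset ℕ) : ℝ := √(((m : ℝ) - ncl m A) / ncl m A)

theorem gam_nonneg (m : ℕ) (A : Finset ℕ) : 0 ≤ gam m A := Real.sqrt_nonneg _

theorem ncl_pos (m : ℕ) (A : Finset ℕ) (hA : A.Nonempty) : 0 < ncl m A :=
  Finset.card_pos.2 (hA.image _)

theorem gam_sq (m : ℕ) (A : Finset ℕ) (hm : ncl m A ≤ m) :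
    gam m A ^ 2 = ((m : ℝ) - ncl m A) / ncl m A := by
  unfold gam
  rw [Real.sq_sqrt]
  apply div_nonneg _ (Nat.cast_nonneg _)
  have : (ncl m A : ℝ) ≤ m := by exact_mod_cast hm
  linarith

/-- The local test function. -/
noncomputable def tst (m : ℕ) (A : Finset ℕ) (y : ZMod m) : ℝ :=
  open Classical in
  if y ∈ A.image (Nat.cast : ℕ → ZMod m) then gam m A else -(gam m A)⁻¹

theorem tst_mem (m : ℕ) (A : Finset ℕ) (n : ℕ) (hn : n ∈ A) :
    tst m A (n : ZMod m) = gam m A := by
  classical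
  unfold tst
  rw [if_pos (Finset.mem_image_of_mem _ hn)]

theorem sum_two (m : ℕ) [NeZero m] (X : Finset (ZMod m)) (a b : ℝ) :
    ∑ y : ZMod m, (if y ∈ X then a else b) = X.card * a + (m - X.card) * b := by
  classical
  rw [Finset.sum_ite, Finset.sum_const, Finset.sum_const, nsmul_eq_mul, nsmul_eq_mul]
  have h1 : (Finset.univ.filter (fun y => y ∈ X)) = X := by ext; simp
  have h2 : (Finset.univ.filter (fun y => y ∉ X)) = Xᶜ := by ext; simp
  rw [h1, h2, Finset.card_compl, ZMod.card]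
  have h3 : X.card ≤ m := by
    have := Finset.card_le_univ X
    rwa [ZMod.card] at this
  rw [Nat.cast_sub h3]

theorem sum_tst (m : ℕ) [NeZero m] (A : Finset ℕ) (hA : A.Nonempty) (hlt : ncl m A < m) :
    ∑ y, tst m A y = 0 := by
  classical
  unfold tst
  rw [sum_two, ncl_eq]
  have h1 : (0 : ℝ) < ncl m A := by exact_mod_cast ncl_pos m A hA
  have h2 : (ncl m A : ℝ) < m := by exact_mod_cast hlt
  have h3 := gam_sq m A hlt.le
  have h4 : 0 < gam m A := by
    unfold gam
    apply Real.sqrt_pos.2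
    apply div_pos _ h1
    linarith
  have h5 : (ncl m A : ℝ) * gam m A ^ 2 = m - ncl m A := by
    rw [h3]; field_simp
  field_simp
  linarith

theorem sum_tst_sq (m : ℕ) [NeZero m] (A : Finset ℕ) (hA : A.Nonempty) (hlt : ncl m A < m) :
    ∑ y, tst m A y ^ 2 ≤ (m : ℝ) := by
  classical
  have e : ∀ y : ZMod m, tst m A y ^ 2
      = if y ∈ A.image (Nat.cast : ℕ → ZMod m) then gam m A ^ 2 else (gam m A ^ 2)⁻¹ := by
    intro y
    unfold tst
    split_ifs
    · rfl
    · rw [neg_sq, inv_pow]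
  simp only [e]
  rw [sum_two, ncl_eq, gam_sq m A hlt.le]
  have h1 : (0 : ℝ) < ncl m A := by exact_mod_cast ncl_pos m A hA
  have h2 : (ncl m A : ℝ) < m := by exact_mod_cast hlt
  have h3 : (m : ℝ) - ncl m A ≠ 0 := by linarith
  apply le_of_eq
  field_simp
  ring

/-- The weights of two sets. -/
theorem le_gam_mul (m : ℕ) (A B : Finset ℕ) (hA : A.Nonempty) (hB : B.Nonempty)
    (hm : ncl m A ≤ m) (η : ℝ)
    (h : η ^ 2 * ((ncl m A : ℝ) * ncl m B) ≤ ((m : ℝ) - ncl m A) * ((m : ℝ) - ncl m B)) :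
    η ≤ gam m A * gam m B := by
  have h1 : (0 : ℝ) < ncl m A := by exact_mod_cast ncl_pos m A hA
  have h2 : (0 : ℝ) < ncl m B := by exact_mod_cast ncl_pos m B hB
  have h3 : (ncl m A : ℝ) ≤ m := by exact_mod_cast hm
  unfold gam
  rw [← Real.sqrt_mul (div_nonneg (by linarith) h1.le)]
  apply Real.le_sqrt_of_sq_le
  rw [div_mul_div_comm, le_div_iff₀ (by positivity)]
  exact h

end Pool.Agent.Helper94.SF
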