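import Mathlib
import Pool.Agent.Helper94.SF.Core
import Pool.Agent.Helper94.SF.Local
import Pool.Agent.Helper12.SF.SF5
import Pool.Agent.Helper30.SF.SF7

/-!
# Project SF (MP_d5570f_nt): the bound for two sets
-/

open Finset

namespace Pool.Agent.Helper94.SF

/-- The primes in `(x / 4, x]`. -/
def prs (x : ℕ) : Finset ℕ := (Finset.Icc 1 x).filter (fun p => p.Prime ∧ x < 4 * p)

theorem mem_prs (x p : ℕ) : p ∈ prs x ↔ p ≤ x ∧ p.Prime ∧ x < 4 * p := by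
  unfold prs
  rw [Finset.mem_filter, Finset.mem_Icc]
  constructor
  · rintro ⟨⟨_, h2⟩, h3⟩; exact ⟨h2, h3⟩
  · rintro ⟨h2, h3⟩; exact ⟨⟨h3.1.one_le, h2⟩, h3⟩

theorem card_prs_le (x : ℕ) : (prs x).card ≤ x := by
  unfold prs
  refine (Finset.card_filter_le _ _).trans ?_
  rw [Nat.card_Icc]
  omega

theorem one_side (N z Bq : ℕ) (hz : 5 ≤ z) (hN : 0 < N) (A : Finset ℕ) (hA : A ⊆ Icc 1 N)
    (hA0 : A.Nonempty) (hlt : ∀ p : ℕ, p.Prime → ncl (p ^ 2) A < p ^ 2)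
    (h10 : z ^ 10 ≤ 8 * N) (h12 : z ^ 12 ≤ 8 * N * Bq) (hB : Bq ≤ z) :
    (A.card : ℝ) * ((∑ p ∈ prs (z ^ 2), gam (p ^ 2) A) * ∑ l ∈ prs z, gam (l ^ 2) A) ^ 2
      ≤ 32 * N * ((prs (z ^ 2)).card * (prs z).card + 8 * (16 + 1) * Bq * (prs (z ^ 2)).card) := by
  classical
  obtain ⟨r, hr1, hr⟩ := Nat.exists_infinite_primes (8 * N)
  set S : Finset ℕ := (range (r + 1)).filter Nat.Prime with hS
  have hSp : ∀ x ∈ S, x.Prime := fun x hx => (Finset.mem_filter.1 hx).2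
  have hzz : z ^ 2 ≤ r := by
    have : z ^ 2 ≤ z ^ 10 := Nat.pow_le_pow_right (by omega) (by norm_num)
    omega
  have hz1 : z ≤ z ^ 2 := by nlinarith
  have hPS : ∀ p ∈ prs (z ^ 2), p ∈ S := by
    intro p hp
    rw [mem_prs] at hp
    rw [hS, Finset.mem_filter, Finset.mem_range]
    exact ⟨by omega, hp.2.1⟩
  have hLS : ∀ p ∈ prs z, p ∈ S := by
    intro p hp
    rw [mem_prs] at hp
    rw [hS, Finset.mem_filter, Finset.mem_range]
    exact ⟨by omega, hp.2.1⟩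
  let ι := {x : ℕ // x ∈ S}
  let q : ι → ℕ := fun i => i.val
  let m : ι → ℕ := fun i => i.val ^ 2
  have : ∀ i, NeZero (m i) := fun i => ⟨pow_ne_zero 2 (hSp i.val i.2).ne_zero⟩
  let F : ∀ i : ι, ZMod (m i) → ℝ := fun i => tst (m i) A
  let P : Finset ι := (prs (z ^ 2)).subtype (· ∈ S)
  let L : Finset ι := (prs z).subtype (· ∈ S)
  have hPmem : ∀ i, i ∈ P ↔ i.val ∈ prs (z ^ 2) := fun i => Finset.mem_subtype
  have hLmem : ∀ i, i ∈ L ↔ i.val ∈ prs z := fun i => Finset.mem_subtype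
  have hPc : P.card = (prs (z ^ 2)).card := by
    rw [Finset.card_subtype, Finset.filter_true_of_mem hPS]
  have hLc : L.card = (prs z).card := by
    rw [Finset.card_subtype, Finset.filter_true_of_mem hLS]
  have hgt : ∀ i ∈ P, z < q i := by
    intro i hi
    have := (mem_prs _ _).1 ((hPmem i).1 hi)
    have h1 : z ^ 2 < 4 * i.val := this.2.2
    change z < i.val
    nlinarith
  have hPL : Disjoint P L := by
    rw [Finset.disjoint_left]
    intro i hi hi'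
    have h1 := hgt i hi
    have h2 := ((mem_prs _ _).1 ((hLmem i).1 hi')).1
    change z < i.val at h1
    omega
  have hPu : ∀ i ∈ P, q i ≤ z ^ 2 := fun i hi => ((mem_prs _ _).1 ((hPmem i).1 hi)).1
  have hLu : ∀ i ∈ L, q i ≤ z := fun i hi => ((mem_prs _ _).1 ((hLmem i).1 hi)).1
  have hcore := core m F q (fun i => rfl) (fun i => hSp i.val i.2)
    (fun a b h => Subtype.ext h)
    (fun i => sum_tst (m i) A hA0 (hlt _ (hSp i.val i.2)))
    (fun i => sum_tst_sq (m i) A hA0 (hlt _ (hSp i.val i.2)))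
    P L hPL 16 Bq N hN
    (by
      intro i hi
      have := hgt i hi
      omega)
    (by
      intro i hi
      have := hgt i hi
      omega)
    (by
      intro p hp p' hp' l hl l' hl'
      have h1 := hPu p' hp'
      have h2 := hLu l hl
      have h3 := hLu l' hl'
      have h4 : z ^ 2 < 4 * q p := ((mem_prs _ _).1 ((hPmem p).1 hp)).2.2
      calc q p' * q l * q l' ≤ z ^ 2 * z * z :=
            Nat.mul_le_mul (Nat.mul_le_mul h1 h2) h3
        _ = z ^ 2 * z ^ 2 := by ring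
        _ ≤ (4 * q p) * (4 * q p) := Nat.mul_le_mul h4.le h4.le
        _ = 16 * q p ^ 2 := by ring)
    (by
      have hrS : r ∈ S := by
        rw [hS, Finset.mem_filter, Finset.mem_range]
        exact ⟨by omega, hr⟩
      have h1 : m ⟨r, hrS⟩ ≤ ∏ i, m i :=
        Nat.le_of_dvd (Finset.prod_pos fun i _ => Nat.pos_of_ne_zero (NeZero.ne (m i)))
          (Finset.dvd_prod_of_mem m (Finset.mem_univ _))
      have h2 : m ⟨r, hrS⟩ = r ^ 2 := rfl
      have h3 : r ≤ r ^ 2 := by nlinarith [hr.one_le]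
      omega)
    (by
      intro p hp l hl l' hl'
      have h1 := hPu p hp
      have h2 := hLu l hl
      have h3 := hLu l' hl'
      calc m p * m l * m l' = (q p * q l * q l') ^ 2 := by
            change q p ^ 2 * q l ^ 2 * q l' ^ 2 = _
            ring
        _ ≤ (z ^ 2 * z * z) ^ 2 := Nat.pow_le_pow_left
            (Nat.mul_le_mul (Nat.mul_le_mul h1 h2) h3) 2
        _ = z ^ 8 := by ring
        _ ≤ z ^ 10 := Nat.pow_le_pow_right (by omega) (by norm_num)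
        _ ≤ 8 * N := h10)
    (by
      intro p hp p' hp' l hl
      have h1 := hPu p hp
      have h2 := hPu p' hp'
      have h3 := hLu l hl
      calc m p * m p' * m l = (q p * q p' * q l) ^ 2 := by
            change q p ^ 2 * q p' ^ 2 * q l ^ 2 = _
            ring
        _ ≤ (z ^ 2 * z ^ 2 * z) ^ 2 := Nat.pow_le_pow_left
            (Nat.mul_le_mul (Nat.mul_le_mul h1 h2) h3) 2
        _ = z ^ 10 := by ring
        _ ≤ 8 * N := h10)
    (by
      intro p hp p' hp' l hl l' hl'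
      have h1 := hPu p hp
      have h2 := hPu p' hp'
      have h3 := hLu l hl
      have h4 := hLu l' hl'
      calc m p * m p' * m l * m l' = (q p * q p' * q l * q l') ^ 2 := by
            change q p ^ 2 * q p' ^ 2 * q l ^ 2 * q l' ^ 2 = _
            ring
        _ ≤ (z ^ 2 * z ^ 2 * z * z) ^ 2 := Nat.pow_le_pow_left
            (Nat.mul_le_mul (Nat.mul_le_mul (Nat.mul_le_mul h1 h2) h3) h4) 2
        _ = z ^ 12 := by ring
        _ ≤ 8 * N * Bq := h12)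
  rw [hPc, hLc] at hcore
  refine le_trans ?_ hcore
  have hval : ∀ n ∈ A, ((∑ p ∈ P, F p (n : ZMod (m p))) * ∑ l ∈ L, F l (n : ZMod (m l)))
      = (∑ p ∈ prs (z ^ 2), gam (p ^ 2) A) * ∑ l ∈ prs z, gam (l ^ 2) A := by
    intro n hn
    have e1 : ∑ p ∈ P, F p (n : ZMod (m p)) = ∑ p ∈ P, gam (p.val ^ 2) A :=
      Finset.sum_congr rfl fun p _ => tst_mem (m p) A n hn
    have e2 : ∑ p ∈ L, F p (n : ZMod (m p)) = ∑ p ∈ L, gam (p.val ^ 2) A :=
      Finset.sum_congr rfl fun p _ => tst_mem (m p) A n hn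
    rw [e1, e2, Finset.sum_subtype_of_mem (fun x => gam (x ^ 2) A) hPS,
      Finset.sum_subtype_of_mem (fun x => gam (x ^ 2) A) hLS]
  calc (A.card : ℝ) * ((∑ p ∈ prs (z ^ 2), gam (p ^ 2) A) * ∑ l ∈ prs z, gam (l ^ 2) A) ^ 2
      = ∑ n ∈ A, ((∑ p ∈ P, F p (n : ZMod (m p))) * ∑ l ∈ L, F l (n : ZMod (m l))) ^ 2 := by
        rw [← nsmul_eq_mul, ← Finset.sum_const]
        exact Finset.sum_congr rfl fun n hn => by rw [hval n hn]
    _ ≤ _ := Finset.sum_le_sum_of_subset_of_nonneg hA (fun _ _ _ => sq_nonneg _)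

/-- Cauchy-Schwarz. -/
theorem card_sq_le (P : Finset ℕ) (f g : ℕ → ℝ) (hf : ∀ p, 0 ≤ f p) (hg : ∀ p, 0 ≤ g p)
    (η : ℝ) (hη : 0 ≤ η)
    (h : ∀ p ∈ P, η ≤ f p * g p) : η * (P.card : ℝ) ^ 2 ≤ (∑ p ∈ P, f p) * ∑ p ∈ P, g p := by
  have h1 := Real.sum_sqrt_mul_sqrt_le P hf hg
  have h2 : (P.card : ℝ) * √η ≤ ∑ p ∈ P, √(f p) * √(g p) := by
    rw [← nsmul_eq_mul, ← Finset.sum_const]
    refine Finset.sum_le_sum fun p hp => ?_
    rw [← Real.sqrt_mul (hf p)]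
    exact Real.sqrt_le_sqrt (h p hp)
  have hF : 0 ≤ ∑ p ∈ P, f p := Finset.sum_nonneg fun p _ => hf p
  have hG : 0 ≤ ∑ p ∈ P, g p := Finset.sum_nonneg fun p _ => hg p
  have h3 := h2.trans h1
  rw [← Real.sqrt_mul hF] at h3
  have h4 := Real.sq_sqrt (mul_nonneg hF hG)
  have h5 : (0 : ℝ) ≤ P.card := Nat.cast_nonneg _
  have h6 := Real.sq_sqrt hη
  have h7 : ((P.card : ℝ) * √η) ^ 2 ≤ (√((∑ p ∈ P, f p) * ∑ p ∈ P, g p)) ^ 2 :=
    pow_le_pow_left₀ (by positivity) h3 2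
  rw [mul_pow, h6, h4] at h7
  linarith

/-- The combination of the two second moment estimates. -/
theorem combine (a b n x p l s t s' t' η : ℝ) (ha : 0 ≤ a) (hb : 0 ≤ b) (hn : 0 ≤ n)
    (hp : 0 < p) (hl : 0 < l) (hη : 0 ≤ η) (hx : x ≤ 137 * (p * l)) (hx0 : 0 ≤ x)
    (h1 : a * (s * t) ^ 2 ≤ 32 * n * x) (h2 : b * (s' * t') ^ 2 ≤ 32 * n * x)
    (h3 : η * p ^ 2 ≤ s * s') (h4 : η * l ^ 2 ≤ t * t') :
    (η ^ 4 * (a * b)) * (p * l) ^ 2 ≤ (4384 * n) ^ 2 := by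
  have h5 : (a * (s * t) ^ 2) * (b * (s' * t') ^ 2) ≤ (32 * n * x) * (32 * n * x) :=
    mul_le_mul h1 h2 (by positivity) (by positivity)
  have h6 : (32 * n * x) ≤ 4384 * n * (p * l) := by
    nlinarith [mul_le_mul_of_nonneg_left hx hn]
  have h7 : (32 * n * x) * (32 * n * x) ≤ (4384 * n * (p * l)) * (4384 * n * (p * l)) :=
    mul_le_mul h6 h6 (by positivity) (by positivity)
  have h8 : (η * p ^ 2) * (η * l ^ 2) ≤ (s * s') * (t * t') :=
    mul_le_mul h3 h4 (by positivity) ((by positivity : (0 : ℝ) ≤ η * p ^ 2).trans h3)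
  have h9 : ((η * p ^ 2) * (η * l ^ 2)) ^ 2 ≤ ((s * s') * (t * t')) ^ 2 :=
    pow_le_pow_left₀ (by positivity) h8 2
  have h10 : a * b * ((η * p ^ 2) * (η * l ^ 2)) ^ 2 ≤ a * b * ((s * s') * (t * t')) ^ 2 :=
    mul_le_mul_of_nonneg_left h9 (mul_nonneg ha hb)
  have h11 : (p * l) ^ 2 * ((η ^ 4 * (a * b)) * (p * l) ^ 2) ≤ (p * l) ^ 2 * (4384 * n) ^ 2 := by
    calc (p * l) ^ 2 * ((η ^ 4 * (a * b)) * (p * l) ^ 2)
        = a * b * ((η * p ^ 2) * (η * l ^ 2)) ^ 2 := by ring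
      _ ≤ a * b * ((s * s') * (t * t')) ^ 2 := h10
      _ = (a * (s * t) ^ 2) * (b * (s' * t') ^ 2) := by ring
      _ ≤ (4384 * n * (p * l)) * (4384 * n * (p * l)) := h5.trans h7
      _ = (p * l) ^ 2 * (4384 * n) ^ 2 := by ring
  exact le_of_mul_le_mul_left h11 (by positivity)

theorem log_le_div_eight (z : ℝ) (hz : 256 ≤ z) : Real.log z ≤ z / 8 := by
  have h0 : 0 ≤ z := by linarith
  have h1 : Real.log (√z) ≤ √z - 1 := Real.log_le_sub_one_of_pos (Real.sqrt_pos.2 (by linarith))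
  rw [Real.log_sqrt h0] at h1
  have h2 : (16 : ℝ) ≤ √z := by
    rw [show (16 : ℝ) = √256 by
      rw [show (256 : ℝ) = 16 ^ 2 by norm_num, Real.sqrt_sq (by norm_num)]]
    exact Real.sqrt_le_sqrt hz
  have h3 := Real.mul_self_sqrt h0
  nlinarith

theorem ncl_le (m : ℕ) (hm : 0 < m) (A : Finset ℕ) : ncl m A ≤ m := by
  have : A.image (· % m) ⊆ range m := by
    intro x hx
    obtain ⟨a, _, rfl⟩ := Finset.mem_image.1 hx
    exact Finset.mem_range.2 (Nat.mod_lt _ hm)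
  have h := Finset.card_le_card this
  rwa [Finset.card_range] at h

theorem ncl_lt (p : ℕ) (hp : p.Prime) (A B : Finset ℕ) (hA : A.Nonempty) (hB : B.Nonempty)
    (η : ℝ) (hη : 0 < η) (h : η ^ 2 * ((ncl (p ^ 2) A : ℝ) * ncl (p ^ 2) B)
      ≤ ((p : ℝ) ^ 2 - ncl (p ^ 2) A) * ((p : ℝ) ^ 2 - ncl (p ^ 2) B)) :
    ncl (p ^ 2) A < p ^ 2 ∧ ncl (p ^ 2) B < p ^ 2 := by
  have hp0 : 0 < p ^ 2 := pow_pos hp.pos 2
  have h1 := ncl_le (p ^ 2) hp0 A
  have h2 := ncl_le (p ^ 2) hp0 B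
  have h3 : (0 : ℝ) < ncl (p ^ 2) A := by exact_mod_cast ncl_pos (p ^ 2) A hA
  have h4 : (0 : ℝ) < ncl (p ^ 2) B := by exact_mod_cast ncl_pos (p ^ 2) B hB
  have h5 : (0 : ℝ) < η ^ 2 * ((ncl (p ^ 2) A : ℝ) * ncl (p ^ 2) B) := by positivity
  have h6 := lt_of_lt_of_le h5 h
  have h7 : (ncl (p ^ 2) A : ℝ) ≤ (p : ℝ) ^ 2 := by exact_mod_cast h1
  have h8 : (ncl (p ^ 2) B : ℝ) ≤ (p : ℝ) ^ 2 := by exact_mod_cast h2
  constructor
  · rcases h1.lt_or_eq with h9 | h9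
    · exact h9
    · exfalso
      rw [h9] at h6
      push_cast at h6
      simp at h6
  · rcases h2.lt_or_eq with h9 | h9
    · exact h9
    · exfalso
      rw [h9] at h6
      push_cast at h6
      simp at h6

theorem two_sided : ∃ z₀ : ℕ, ∀ N z : ℕ, z₀ ≤ z → (z : ℝ) ^ 11 * Real.log N ≤ N → z ≤ N →
    ∀ A B : Finset ℕ, A ⊆ Icc 1 N → B ⊆ Icc 1 N →
    ∀ η : ℝ, 0 < η →
    (∀ p : ℕ, p.Prime → η ^ 2 * ((ncl (p ^ 2) A : ℝ) * ncl (p ^ 2) B)
      ≤ ((p : ℝ) ^ 2 - ncl (p ^ 2) A) * ((p : ℝ) ^ 2 - ncl (p ^ 2) B)) →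
    η ^ 4 * ((A.card : ℝ) * B.card)
      ≤ (1024 * 4384 ^ 2) * (N : ℝ) ^ 2 * Real.log N ^ 4 / (z : ℝ) ^ 6 := by
  obtain ⟨x₀, hx₀⟩ := primes_count
  refine ⟨max 256 x₀, ?_⟩
  intro N z hz hzN hzN' A B hA hB η hη hcl
  have hz256 : 256 ≤ z := le_trans (le_max_left _ _) hz
  have hzx : x₀ ≤ z := le_trans (le_max_right _ _) hz
  have hNpos : 0 < N := by omega
  have hNr : (0 : ℝ) < N := by exact_mod_cast hNpos
  have hzr : (256 : ℝ) ≤ z := by exact_mod_cast hz256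
  have hzNr : (z : ℝ) ≤ N := by exact_mod_cast hzN'
  have hlogz1 : 1 ≤ Real.log z := by
    rw [Real.le_log_iff_exp_le (by linarith)]
    have := Real.exp_one_lt_d9
    linarith
  have hlogzN : Real.log z ≤ Real.log N := Real.log_le_log (by linarith) hzNr
  have hlogN1 : 1 ≤ Real.log N := hlogz1.trans hlogzN
  have hrhs : (0 : ℝ) ≤ (1024 * 4384 ^ 2) * (N : ℝ) ^ 2 * Real.log N ^ 4 / (z : ℝ) ^ 6 := by
    positivity
  rcases A.eq_empty_or_nonempty with rfl | hA0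
  · simpa using hrhs
  rcases B.eq_empty_or_nonempty with rfl | hB0
  · simpa using hrhs
  have hz11 : z ^ 11 ≤ N := by
    have h1 : (z : ℝ) ^ 11 ≤ N := by
      refine le_trans ?_ hzN
      have : (0 : ℝ) ≤ (z : ℝ) ^ 11 := by positivity
      nlinarith
    exact_mod_cast h1
  have h10 : z ^ 10 ≤ 8 * N := by
    have : z ^ 10 ≤ z ^ 11 := Nat.pow_le_pow_right (by omega) (by norm_num)
    omega
  set Bq : ℕ := z ^ 12 / (8 * N) + 1 with hBq
  have h12 : z ^ 12 ≤ 8 * N * Bq := (Nat.lt_mul_div_succ (z ^ 12) (by omega)).le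
  -- numbers of primes
  have hL : (z : ℝ) / (4 * Real.log z) ≤ ((prs z).card : ℝ) := hx₀ z hzx
  have hP : ((z ^ 2 : ℕ) : ℝ) / (4 * Real.log ((z ^ 2 : ℕ) : ℝ)) ≤ ((prs (z ^ 2)).card : ℝ) :=
    hx₀ (z ^ 2) (by nlinarith)
  have hBqL : (Bq : ℝ) ≤ (prs z).card := by
    refine le_trans ?_ hL
    have h1 : ((z ^ 12 / (8 * N) : ℕ) : ℝ) ≤ ((z ^ 12 : ℕ) : ℝ) / ((8 * N : ℕ) : ℝ) :=
      Nat.cast_div_le
    have h2 : ((z ^ 12 : ℕ) : ℝ) / ((8 * N : ℕ) : ℝ) ≤ z / (8 * Real.log z) := by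
      push_cast
      rw [div_le_div_iff₀ (by positivity) (by positivity)]
      have h3 : (z : ℝ) ^ 11 * Real.log z ≤ N := le_trans (by gcongr) hzN
      have h4 : (0 : ℝ) ≤ 8 * z := by positivity
      nlinarith [mul_le_mul_of_nonneg_left h3 h4]
    have h5 : (1 : ℝ) ≤ z / (8 * Real.log z) := by
      rw [one_le_div (by positivity)]
      have := log_le_div_eight z hzr
      linarith
    have h6 : (z : ℝ) / (4 * Real.log z) = z / (8 * Real.log z) + z / (8 * Real.log z) := by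
      field_simp; norm_num
    rw [hBq, h6]
    push_cast
    push_cast at h1 h2
    linarith
  have hBqz : Bq ≤ z := by
    have h1 : (Bq : ℝ) ≤ z := hBqL.trans (by exact_mod_cast card_prs_le z)
    exact_mod_cast h1
  have hlt : ∀ p : ℕ, p.Prime → ncl (p ^ 2) A < p ^ 2 ∧ ncl (p ^ 2) B < p ^ 2 :=
    fun p hp => ncl_lt p hp A B hA0 hB0 η hη (hcl p hp)
  have hltA : ∀ p : ℕ, p.Prime → ncl (p ^ 2) A < p ^ 2 := fun p hp => (hlt p hp).1
  have hltB : ∀ p : ℕ, p.Prime → ncl (p ^ 2) B < p ^ 2 := fun p hp => (hlt p hp).2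
  have eA := one_side N z Bq (by omega) hNpos A hA hA0 hltA h10 h12 hBqz
  have eB := one_side N z Bq (by omega) hNpos B hB hB0 hltB h10 h12 hBqz
  have hLpos : (0 : ℝ) < (prs z).card := lt_of_lt_of_le (by positivity) hL
  have hPpos : (0 : ℝ) < (prs (z ^ 2)).card := by
    refine lt_of_lt_of_le ?_ hP
    have : (0 : ℝ) < Real.log ((z ^ 2 : ℕ) : ℝ) := by
      push_cast
      rw [Real.log_pow]
      positivity
    positivity
  have hcs : ∀ P : Finset ℕ, (∀ p ∈ P, p.Prime) → η * (P.card : ℝ) ^ 2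
      ≤ (∑ p ∈ P, gam (p ^ 2) A) * ∑ p ∈ P, gam (p ^ 2) B := by
    intro P hP
    apply card_sq_le P _ _ (fun p => gam_nonneg _ _) (fun p => gam_nonneg _ _) η hη.le
    intro p hp
    apply le_gam_mul (p ^ 2) A B hA0 hB0 (hltA p (hP p hp)).le η
    have := hcl p (hP p hp)
    push_cast
    exact this
  have key := combine (A.card) (B.card) N
    ((prs (z ^ 2)).card * (prs z).card + 8 * (16 + 1) * Bq * (prs (z ^ 2)).card)
    ((prs (z ^ 2)).card) ((prs z).card) _ _ _ _ η (by positivity) (by positivity) hNr.le hPpos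
    hLpos hη.le (by nlinarith) (by positivity) eA eB
    (hcs _ fun p hp => ((mem_prs _ _).1 hp).2.1) (hcs _ fun p hp => ((mem_prs _ _).1 hp).2.1)
  have hlogz0 : 0 < Real.log z := by linarith
  have hPL : (z : ℝ) ^ 3 / (32 * Real.log N ^ 2)
      ≤ ((prs (z ^ 2)).card : ℝ) * (prs z).card := by
    have h1 : (z : ℝ) ^ 3 / (32 * Real.log N ^ 2) ≤ (z : ℝ) ^ 3 / (32 * Real.log z ^ 2) := by
      gcongr
    have h2 : (z : ℝ) ^ 3 / (32 * Real.log z ^ 2)
        = ((z ^ 2 : ℕ) : ℝ) / (4 * Real.log ((z ^ 2 : ℕ) : ℝ)) * (z / (4 * Real.log z)) := by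
      push_cast
      rw [Real.log_pow]
      push_cast
      field_simp
      norm_num
    rw [h2] at h1
    refine h1.trans (mul_le_mul hP hL (by positivity) hPpos.le)
  have h7 : ((z : ℝ) ^ 3 / (32 * Real.log N ^ 2)) ^ 2
      ≤ (((prs (z ^ 2)).card : ℝ) * (prs z).card) ^ 2 :=
    pow_le_pow_left₀ (by positivity) hPL 2
  have h8 : (η ^ 4 * ((A.card : ℝ) * B.card)) * ((z : ℝ) ^ 3 / (32 * Real.log N ^ 2)) ^ 2
      ≤ (4384 * N) ^ 2 :=
    (mul_le_mul_of_nonneg_left h7 (by positivity)).trans key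
  rw [le_div_iff₀ (by positivity)]
  have h9 : (η ^ 4 * ((A.card : ℝ) * B.card)) * (z : ℝ) ^ 6
      = ((η ^ 4 * ((A.card : ℝ) * B.card)) * ((z : ℝ) ^ 3 / (32 * Real.log N ^ 2)) ^ 2)
        * (1024 * Real.log N ^ 4) := by
    field_simp
    norm_num
  rw [h9]
  calc _ ≤ (4384 * (N : ℝ)) ^ 2 * (1024 * Real.log N ^ 4) :=
        mul_le_mul_of_nonneg_right h8 (by positivity)
    _ = _ := by ring

end Pool.Agent.Helper94.SF
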