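import Mathlib
import Pool.Agent.Helper94.SF.Main

/-!
# Project SF (MP_d5570f_nt): final bounds
-/

open Finset

namespace Pool.Agent.Helper94.SF

/-- The admissible values. -/
def vals (N : ℕ) : Set ℝ :=
  {x : ℝ | ∃ A B : Finset ℕ, A ⊆ Icc 1 N ∧ B ⊆ Icc 1 N ∧ ∃ η : ℝ, 0 < η ∧ η ≤ 1 ∧
    (∀ p : ℕ, p.Prime → η ^ 2 * ((ncl (p ^ 2) A : ℝ) * ncl (p ^ 2) B)
      ≤ ((p : ℝ) ^ 2 - ncl (p ^ 2) A) * ((p : ℝ) ^ 2 - ncl (p ^ 2) B)) ∧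
    x = η ^ 4 * ((A.card : ℝ) * B.card)}

theorem vals_le (N : ℕ) (x : ℝ) (hx : x ∈ vals N) : x ≤ (N : ℝ) ^ 2 := by
  obtain ⟨A, B, hA, hB, η, h0, h1, _, rfl⟩ := hx
  have hAc : (A.card : ℝ) ≤ N := by
    have := Finset.card_le_card hA
    rw [Nat.card_Icc] at this
    exact_mod_cast (by omega : A.card ≤ N)
  have hBc : (B.card : ℝ) ≤ N := by
    have := Finset.card_le_card hB
    rw [Nat.card_Icc] at this
    exact_mod_cast (by omega : B.card ≤ N)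
  have h2 : η ^ 4 ≤ 1 := pow_le_one₀ h0.le h1
  have h3 : (A.card : ℝ) * B.card ≤ N * N := mul_le_mul hAc hBc (by positivity) (by positivity)
  have h4 : (0 : ℝ) ≤ (A.card : ℝ) * B.card := by positivity
  calc η ^ 4 * ((A.card : ℝ) * B.card) ≤ 1 * ((A.card : ℝ) * B.card) :=
        mul_le_mul_of_nonneg_right h2 h4
    _ ≤ (N : ℝ) ^ 2 := by rw [one_mul, sq]; exact h3

theorem vals_nonempty (N : ℕ) : (vals N).Nonempty := by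
  refine ⟨_, ∅, ∅, by simp, by simp, 1, one_pos, le_rfl, ?_, rfl⟩
  intro p _
  have h : ncl (p ^ 2) ∅ = 0 := by simp [ncl]
  rw [h]
  simp only [Nat.cast_zero, mul_zero, sub_zero]
  positivity

/-- Two sets. -/
theorem pair_bound : ∃ C : ℝ, 0 < C ∧ ∀ N : ℕ, 2 ≤ N → ∀ A B : Finset ℕ,
    A ⊆ Icc 1 N → B ⊆ Icc 1 N → ∀ η : ℝ, 0 < η → η ≤ 1 →
    (∀ p : ℕ, p.Prime → η ^ 2 * ((ncl (p ^ 2) A : ℝ) * ncl (p ^ 2) B)
      ≤ ((p : ℝ) ^ 2 - ncl (p ^ 2) A) * ((p : ℝ) ^ 2 - ncl (p ^ 2) B)) →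
    η ^ 4 * ((A.card : ℝ) * B.card)
      ≤ C * (N : ℝ) ^ (16 / 11 : ℝ) * Real.log N ^ (50 / 11 : ℝ) := by
  obtain ⟨z₀, hz₀⟩ := two_sided
  obtain ⟨C, hC, h⟩ := numerics (fun N => sSup (vals N))
    (fun N => csSup_le (vals_nonempty N) (vals_le N)) (1024 * 4384 ^ 2) z₀
    (by
      intro N z hz h1 h2
      apply csSup_le (vals_nonempty N)
      rintro x ⟨A, B, hA, hB, η, h3, h4, h5, rfl⟩
      exact hz₀ N z hz h1 h2 A B hA hB η h3 h5)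
  refine ⟨C, hC, ?_⟩
  intro N hN A B hA hB η h0 h1 h2
  refine le_trans ?_ (h N hN)
  exact le_csSup ⟨(N : ℝ) ^ 2, fun x hx => vals_le N x hx⟩ ⟨A, B, hA, hB, η, h0, h1, h2, rfl⟩

/-- Square roots. -/
theorem root_bound (x C : ℝ) (hC : 0 < C) (N : ℕ)
    (h : x * x ≤ C * (N : ℝ) ^ (16 / 11 : ℝ) * Real.log N ^ (50 / 11 : ℝ)) :
    x ≤ √C * (N : ℝ) ^ (8 / 11 : ℝ) * Real.log N ^ (25 / 11 : ℝ) := by
  have hN0 : (0 : ℝ) ≤ N := Nat.cast_nonneg _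
  have hL0 : (0 : ℝ) ≤ Real.log N := Real.log_natCast_nonneg N
  have e1 : (N : ℝ) ^ (16 / 11 : ℝ) = (N : ℝ) ^ (8 / 11 : ℝ) * (N : ℝ) ^ (8 / 11 : ℝ) := by
    rw [← Real.rpow_add_of_nonneg hN0 (by norm_num) (by norm_num)]
    norm_num
  have e2 : Real.log N ^ (50 / 11 : ℝ)
      = Real.log N ^ (25 / 11 : ℝ) * Real.log N ^ (25 / 11 : ℝ) := by
    rw [← Real.rpow_add_of_nonneg hL0 (by norm_num) (by norm_num)]
    norm_num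
  have e3 := Real.mul_self_sqrt hC.le
  apply abs_le_of_sq_le_sq' _ (by positivity) |>.2
  rw [sq, sq]
  refine h.trans (le_of_eq ?_)
  rw [e1, e2]
  nth_rewrite 1 [← e3]
  ring

/-- One set. -/
theorem set_bound (C : ℝ) (hC : 0 < C) (N : ℕ) (A : Finset ℕ)
    (hp : ∀ η : ℝ, 0 < η → η ≤ 1 →
      (∀ p : ℕ, p.Prime → η ^ 2 * ((ncl (p ^ 2) A : ℝ) * ncl (p ^ 2) A)
        ≤ ((p : ℝ) ^ 2 - ncl (p ^ 2) A) * ((p : ℝ) ^ 2 - ncl (p ^ 2) A)) →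
      η ^ 4 * ((A.card : ℝ) * A.card)
        ≤ C * (N : ℝ) ^ (16 / 11 : ℝ) * Real.log N ^ (50 / 11 : ℝ))
    (c : ℝ) (hc0 : 0 ≤ c) (hc1 : c < 1)
    (h : ∀ p : ℕ, p.Prime → (ncl (p ^ 2) A : ℝ) ≤ c * (p : ℝ) ^ 2) :
    (1 - c) ^ 2 * (A.card : ℝ) ≤ √C * (N : ℝ) ^ (8 / 11 : ℝ) * Real.log N ^ (25 / 11 : ℝ) := by
  apply root_bound _ C hC N
  have h1 := hp (1 - c) (by linarith) (by linarith) (by
    intro p hp
    have h2 := h p hp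
    have h3 : (0 : ℝ) ≤ ncl (p ^ 2) A := Nat.cast_nonneg _
    have h4 : (0 : ℝ) ≤ (p : ℝ) ^ 2 := by positivity
    have h5 : (1 - c) * (ncl (p ^ 2) A : ℝ) ≤ (p : ℝ) ^ 2 - ncl (p ^ 2) A := by
      have h6 : (ncl (p ^ 2) A : ℝ) ≤ (p : ℝ) ^ 2 := by nlinarith
      nlinarith
    have h6 : 0 ≤ (1 - c) * (ncl (p ^ 2) A : ℝ) := mul_nonneg (by linarith) h3
    nlinarith [mul_le_mul h5 h5 h6 (h6.trans h5)])
  refine le_trans (le_of_eq ?_) h1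
  ring

/-- Squarefree sums give complementary classes. -/
theorem classes_of_squarefree (A B : Finset ℕ) (h : ∀ a ∈ A, ∀ b ∈ B, Squarefree (a + b))
    (p : ℕ) (hp : p.Prime) : ncl (p ^ 2) A + ncl (p ^ 2) B ≤ p ^ 2 := by
  classical
  have : NeZero (p ^ 2) := ⟨pow_ne_zero 2 hp.ne_zero⟩
  rw [← ncl_eq, ← ncl_eq]
  set X := A.image (Nat.cast : ℕ → ZMod (p ^ 2))
  set Y := B.image (Nat.cast : ℕ → ZMod (p ^ 2))
  have h1 : (Y.image Neg.neg).card = Y.card := Finset.card_image_of_injective _ neg_injective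
  have h2 : Disjoint X (Y.image Neg.neg) := by
    rw [Finset.disjoint_left]
    intro x hx hx'
    obtain ⟨a, ha, rfl⟩ := Finset.mem_image.1 hx
    obtain ⟨y, hy, hy'⟩ := Finset.mem_image.1 hx'
    obtain ⟨b, hb, rfl⟩ := Finset.mem_image.1 hy
    have h3 : ((a + b : ℕ) : ZMod (p ^ 2)) = 0 := by
      push_cast
      rw [← hy']
      ring
    rw [ZMod.natCast_eq_zero_iff] at h3
    have h4 := h a ha b hb p (by rwa [← sq])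
    exact hp.one_lt.ne' (Nat.isUnit_iff.1 h4)
  rw [← h1, ← Finset.card_union_of_disjoint h2]
  refine (Finset.card_le_univ _).trans ?_
  rw [ZMod.card]

theorem eta_one (p : ℕ) (A B : Finset ℕ) (h : ncl (p ^ 2) A + ncl (p ^ 2) B ≤ p ^ 2) :
    (1 : ℝ) ^ 2 * ((ncl (p ^ 2) A : ℝ) * ncl (p ^ 2) B)
      ≤ ((p : ℝ) ^ 2 - ncl (p ^ 2) A) * ((p : ℝ) ^ 2 - ncl (p ^ 2) B) := by
  have h1 : (ncl (p ^ 2) A : ℝ) + ncl (p ^ 2) B ≤ (p : ℝ) ^ 2 := by exact_mod_cast h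
  have h2 : (0 : ℝ) ≤ (p : ℝ) ^ 2 := by positivity
  nlinarith

end Pool.Agent.Helper94.SF
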